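import Pool.Agent.Lib.MP_a20de0_al.CDC.ExtT

set_option autoImplicit false

/-! CDC-XMod.  The modules `XM e σ = ⊕ A e_(σ t)`: projective, maps out of them, and `Ext^j(XM, S) = 0` for all `j`
(`Hom(A e_j, S) = e_j S = 0`). -/

namespace Pool.Agent.CDC
open CategoryTheory

variable {A : Type} [Ring A] {ι : Type} {e : ι → A} {S : Type} [AddCommGroup S] [Module A S]

private theorem XMod_mul {a : A} (ha : IsIdempotentElem a) (b : Le a) : (b : A) * a = b := by
  obtain ⟨c, hc⟩ := Submodule.mem_span_singleton.1 b.2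
  rw [← hc, smul_eq_mul, mul_assoc, ha.eq]

theorem proj_Le {a : A} (ha : IsIdempotentElem a) : Module.Projective A (Le a) := by
  refine Module.Projective.of_split (Submodule.subtype (Submodule.span A ({a} : Set A)))
    (LinearMap.toSpanSingleton A (Le a) ⟨a, Submodule.mem_span_singleton_self a⟩) ?_
  ext b
  exact XMod_mul ha b

theorem proj_XM (he : ∀ i, IsIdempotentElem (e i)) {r : ℕ} (σ : Fin r → ι) :
    Module.Projective A (XM e σ) := by
  have h : ∀ t, Module.Projective A (Le (e (σ t))) := fun t => proj_Le (he (σ t))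
  exact Module.Projective.of_equiv (DFinsupp.linearEquivFunOnFintype (R := A) (M := fun t => Le (e (σ t))))

/-- the map `⊕ A e_(σ t) → M` with given images `y t ∈ e_(σ t) M` of the generators -/
theorem exists_map (he : ∀ i, IsIdempotentElem (e i)) {M : Type} [AddCommGroup M] [Module A M] {r : ℕ}
    (σ : Fin r → ι) (y : Fin r → M) (hy : ∀ t, e (σ t) • y t = y t) :
    ∃ u : XM e σ →ₗ[A] M, ∀ x : XM e σ, u x = ∑ t, (x t : A) • y t := by
  refine ⟨∑ t, (LinearMap.toSpanSingleton A M (y t)) ∘ₗ
    (Submodule.subtype (Submodule.span A ({e (σ t)} : Set A))) ∘ₗ (LinearMap.proj t), fun x => ?_⟩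
  rw [LinearMap.sum_apply]
  rfl

theorem T_XM (he : ∀ i, IsIdempotentElem (e i)) (hS : Kill e S) {r : ℕ}
    (σ : Fin r → ι) (j : ℕ) : T A S (XM e σ) j := by
  rcases Nat.eq_zero_or_pos j with rfl | hj
  · rw [T_zero_iff]
    intro g
    refine LinearMap.pi_ext' fun t => ?_
    refine LinearMap.ext fun b => ?_
    have h1 : b = (b : A) • (⟨e (σ t), Submodule.mem_span_singleton_self _⟩ : Le (e (σ t))) :=
      Subtype.ext (XMod_mul (he (σ t)) b).symm
    have h2 : (⟨e (σ t), Submodule.mem_span_singleton_self _⟩ : Le (e (σ t))) =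
        e (σ t) • (⟨e (σ t), Submodule.mem_span_singleton_self _⟩ : Le (e (σ t))) :=
      Subtype.ext (he (σ t)).eq.symm
    rw [h1, map_smul, h2, map_smul, hS, smul_zero, map_smul, LinearMap.zero_comp, LinearMap.zero_apply, smul_zero]
  · have := proj_XM he σ
    exact T_proj j hj

/-- existence of a first step: `XM → M` with `e_j M` in the image (`M` has finitely many generators `y` over `R`; use the elements
`e_j y`) -/
theorem exists_approx (R : Type) [CommRing R] [Algebra R A] [Fintype ι] (he : ∀ i, IsIdempotentElem (e i))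
    (M : Type) [AddCommGroup M] [Module R M] [Module A M] [IsScalarTower R A M] [Module.Finite R M] :
    ∃ (r : ℕ) (σ : Fin r → ι) (u : XM e σ →ₗ[A] M), ∀ j, ∀ x : M, e j • x ∈ LinearMap.range u := by
  classical
  obtain ⟨n, y, hy⟩ := Module.Finite.exists_fin (R := R) (M := M)
  let q : Fin (Fintype.card (ι × Fin n)) ≃ ι × Fin n := (Fintype.equivFin _).symm
  obtain ⟨u, hu⟩ := exists_map he (fun t => (q t).1) (fun t => e (q t).1 • y (q t).2) fun t => by
    rw [← mul_smul, (he (q t).1).eq]
  refine ⟨_, _, u, fun j x => ?_⟩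
  have hgen : ∀ i, e j • y i ∈ LinearMap.range u := by
    intro i
    obtain ⟨t, ht⟩ := q.surjective (j, i)
    refine ⟨Pi.single t ⟨e (q t).1, Submodule.mem_span_singleton_self _⟩, ?_⟩
    rw [hu, Finset.sum_eq_single t]
    · rw [Pi.single_eq_same]
      change e (q t).1 • e (q t).1 • y (q t).2 = _
      rw [← mul_smul, (he (q t).1).eq, ht]
    · intro t' _ ht'
      rw [Pi.single_eq_of_ne ht']
      change (0 : A) • _ = _
      rw [zero_smul]
    · intro h
      exact absurd (Finset.mem_univ t) h
  have hx : x ∈ Submodule.span R (Set.range y) := by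
    rw [hy]
    exact Submodule.mem_top
  induction hx using Submodule.span_induction with
  | mem x hx =>
    obtain ⟨i, rfl⟩ := hx
    exact hgen i
  | zero =>
    rw [smul_zero]
    exact Submodule.zero_mem _
  | add x z _ _ hx hz =>
    rw [smul_add]
    exact Submodule.add_mem _ hx hz
  | smul r x _ hx =>
    have h1 : e j • r • x = (algebraMap R A r) • e j • x := by
      rw [← algebraMap_smul A r x, ← mul_smul, ← mul_smul, Algebra.commutes]
    rw [h1]
    exact Submodule.smul_mem _ _ hx

end Pool.Agent.CDC
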