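import Pool.Agent.Lib.MP_a20de0_al.CDC.LenAdd
import Pool.Agent.Lib.MP_a20de0_al.CDC.XMod

set_option autoImplicit false

/-! CDC-KS.  Krull–Schmidt existence for finitely generated projective modules over an Artin algebra with
`1 = ∑ e_j`, `e_j` orthogonal local idempotents.
Strong induction on `(Module.length R P).toNat` (or `Module.finrank`-like measure).  `P` nontrivial: `P` is Noetherian, take a maximal
submodule `W`; `P ⧸ W` is simple, `1 = ∑ e_j`, so some `e_j y ≠ 0`, `y ∈ P ⧸ W`; the map `g : A e_j → P ⧸ W`, `x ↦ x y` is onto.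
Lift `P → P ⧸ W` through `g` (P projective): `ψ : P → A e_j`, and `g` through `P → P ⧸ W` (`A e_j` projective): `φ : A e_j → P`, `φ(e_j) = p ∈ e_j P`.
`ψ(φ(e_j)) =: a ∈ e_j A e_j` and `a y = e_j y ≠ 0`, more precisely `(a^n) y = e_j y` so `a` is not nilpotent, so a unit of `e_j A e_j` (`Loc`).
So `ψ ∘ φ` is an isomorphism, `P ≅ A e_j × ker ψ`, `ker ψ` is projective of smaller length. -/

namespace Pool.Agent.CDC

/-- elements of `B a`, `a` idempotent -/
private theorem ks_mem {B : Type} [Ring B] {a : B} (ha : IsIdempotentElem a) (x : Le a) : (x : B) * a = x := by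
  obtain ⟨c, hc⟩ := Submodule.mem_span_singleton.1 x.2
  rw [← hc, smul_eq_mul, mul_assoc, ha.eq]

private theorem ks_self {B : Type} [Ring B] (a : B) : a ∈ Submodule.span B ({a} : Set B) :=
  Submodule.mem_span_singleton_self a

/-- the splitting off of one summand -/
private theorem ks_split {B : Type} [Ring B] {ι : Type} [Fintype ι] (e : ι → B) (hi : ∀ i, IsIdempotentElem (e i))
    (hsum : ∑ i, e i = 1) (hl : ∀ i, Loc (e i)) (P : Type) [AddCommGroup P] [Module B P] [Module.Finite B P]
    [Module.Projective B P] [Nontrivial P] :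
    ∃ (j : ι) (ψ : P →ₗ[B] Le (e j)) (φ : Le (e j) →ₗ[B] P), ψ.comp φ = LinearMap.id := by
  obtain ⟨W, hW⟩ := IsCoatomic.exists_coatom (Submodule B P)
  have hs : IsSimpleModule B (P ⧸ W) := isSimpleModule_iff_isCoatom.2 hW
  have hnt : Nontrivial (P ⧸ W) := IsSimpleModule.nontrivial B (P ⧸ W)
  obtain ⟨y0, hy0⟩ := exists_ne (0 : P ⧸ W)
  have h1 : ∃ j, e j • y0 ≠ 0 := by
    by_contra hcon
    push Not at hcon
    apply hy0
    rw [← one_smul B y0, ← hsum, Finset.sum_smul]
    exact Finset.sum_eq_zero fun j _ => hcon j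
  obtain ⟨j, hj⟩ := h1
  set y : P ⧸ W := e j • y0 with hy
  have hyj : e j • y = y := by rw [hy, smul_smul, (hi j).eq]
  let g : Le (e j) →ₗ[B] P ⧸ W := (LinearMap.toSpanSingleton B (P ⧸ W) y).comp (Submodule.subtype _)
  have hg : ∀ x : Le (e j), g x = (x : B) • y := fun x => rfl
  let ej : Le (e j) := ⟨e j, ks_self (e j)⟩
  have hgs : Function.Surjective g := by
    rcases LinearMap.surjective_or_eq_zero g with h | h
    · exact h
    · exfalso
      apply hj
      have h2 : g ej = 0 := by rw [h]; rfl
      rw [hg] at h2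
      change e j • y = 0 at h2
      rw [hyj] at h2
      exact h2
  have hp : Module.Projective B (Le (e j)) := proj_Le (hi j)
  obtain ⟨ψ, hψ⟩ := Module.projective_lifting_property g W.mkQ hgs
  obtain ⟨φ, hφ⟩ := Module.projective_lifting_property W.mkQ g W.mkQ_surjective
  have hψ' : ∀ p, g (ψ p) = W.mkQ p := fun p => LinearMap.congr_fun hψ p
  have hφ' : ∀ x, W.mkQ (φ x) = g x := fun x => LinearMap.congr_fun hφ x
  set a : Le (e j) := ψ (φ ej) with ha
  have hej : e j • ej = ej := Subtype.ext (hi j).eq
  have hea : e j • a = a := by rw [ha, ← map_smul, ← map_smul, hej]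
  have hea' : e j * (a : B) = a := congrArg Subtype.val hea
  have hae : (a : B) * e j = a := ks_mem (hi j) a
  have hay : (a : B) • y = y := by
    rw [← hg, ha, hψ', hφ', hg]
    exact hyj
  have hnil : ¬ IsNilpotent (a : B) := by
    rintro ⟨n, hn⟩
    have h3 : ∀ n : ℕ, ((a : B) ^ n) • y = y := by
      intro n
      induction n with
      | zero => rw [pow_zero, one_smul]
      | succ n ih => rw [pow_succ, mul_smul, hay, ih]
    exact hj (by rw [← h3 n, hn, zero_smul])
  obtain ⟨b, hb1, hb2, hb3⟩ := ((hl j).2 (a : B) (by rw [hea', hae])).resolve_right hnil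
  have hbe : b * e j = b := by
    have h5 : e j * b * e j * e j = e j * b * e j := by rw [mul_assoc (e j * b), (hi j).eq]
    rwa [hb1] at h5
  -- right multiplication by b
  let ρ : Le (e j) →ₗ[B] Le (e j) :=
    { toFun := fun x => ⟨(x : B) * b, by
        rw [← hbe, ← mul_assoc, ← smul_eq_mul ((x : B) * b)]
        exact Submodule.smul_mem _ _ (ks_self (e j))⟩
      map_add' := fun x y => Subtype.ext (add_mul _ _ _)
      map_smul' := fun c x => Subtype.ext (mul_assoc _ _ _) }
  have hψφ : ∀ x : Le (e j), ((ψ (φ x) : Le (e j)) : B) = (x : B) * a := by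
    intro x
    have h4 : x = (x : B) • ej := Subtype.ext (ks_mem (hi j) x).symm
    conv_lhs => rw [h4]
    rw [map_smul, map_smul]
    rfl
  refine ⟨j, ψ, φ.comp ρ, LinearMap.ext fun x => Subtype.ext ?_⟩
  change ((ψ (φ (ρ x)) : Le (e j)) : B) = x
  rw [hψφ]
  change (x : B) * b * a = x
  rw [mul_assoc, hb3]
  exact ks_mem (hi j) x

theorem KS (R : Type) [CommRing R] [IsArtinianRing R] {B : Type} [Ring B] [Algebra R B]
    [Module.Finite R B] {ι : Type} [Fintype ι] (e : ι → B) (hi : ∀ i, IsIdempotentElem (e i))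
    (hsum : ∑ i, e i = 1) (hl : ∀ i, Loc (e i))
    (P : Type) [AddCommGroup P] [Module R P] [Module B P] [IsScalarTower R B P] [Module.Finite R P]
    [Module.Projective B P] :
    ∃ (r : ℕ) (σ : Fin r → ι), Nonempty (P ≃ₗ[B] XM e σ) := by
  suffices H : ∀ (n : ℕ) (P : Type) [AddCommGroup P] [Module R P] [Module B P] [IsScalarTower R B P] [Module.Finite R P]
      [Module.Projective B P], Module.length R P ≤ n → ∃ (r : ℕ) (σ : Fin r → ι), Nonempty (P ≃ₗ[B] XM e σ) by
    have hlen : Module.length R P ≠ ⊤ := Module.length_ne_top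
    refine H (Module.length R P).toNat P ?_
    rw [ENat.natCast_toNat hlen]
  have hsub : ∀ (P : Type) [AddCommGroup P] [Module B P], Subsingleton P →
      ∃ (r : ℕ) (σ : Fin r → ι), Nonempty (P ≃ₗ[B] XM e σ) := by
    intro P _ _ hP
    exact ⟨0, fun t => t.elim0, ⟨0⟩⟩
  intro n
  induction n with
  | zero =>
    intro P _ _ _ _ _ _ hlen
    refine hsub P ?_
    have h0 : Module.length R P = 0 := le_antisymm (by simpa using hlen) bot_le
    exact Module.length_eq_zero_iff.1 h0
  | succ n ih =>
    intro P _ _ _ _ _ _ hlen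
    rcases subsingleton_or_nontrivial P with hP | hP
    · exact hsub P hP
    · have hfin : Module.Finite B P := Module.Finite.of_restrictScalars_finite R B P
      obtain ⟨j, ψ, φ, hψφ⟩ := ks_split e hi hsum hl P
      have h1 : ∀ x, ψ (φ x) = x := fun x => LinearMap.congr_fun hψφ x
      have hmem : ∀ p, p - φ (ψ p) ∈ LinearMap.ker ψ := fun p => by
        rw [LinearMap.mem_ker, map_sub, h1, sub_self]
      let s : P →ₗ[B] LinearMap.ker ψ := LinearMap.codRestrict _ (LinearMap.id - φ.comp ψ) hmem
      have hs : s.comp (LinearMap.ker ψ).subtype = LinearMap.id := by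
        refine LinearMap.ext fun x => Subtype.ext ?_
        change (x : P) - φ (ψ x) = x
        rw [LinearMap.mem_ker.1 x.2, map_zero, sub_zero]
      have hproj : Module.Projective B (LinearMap.ker ψ) := Module.Projective.of_split _ s hs
      have hfinK : Module.Finite R (LinearMap.ker ψ) :=
        Module.Finite.of_injective ((LinearMap.ker ψ).subtype.restrictScalars R) Subtype.val_injective
      let E : P ≃ₗ[B] Le (e j) × LinearMap.ker ψ := LinearEquiv.ofLinearMap (ψ.prod s)
        (φ.coprod (LinearMap.ker ψ).subtype)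
        (by
          refine LinearMap.ext fun q => Prod.ext ?_ (Subtype.ext ?_)
          · change ψ (φ q.1 + q.2) = q.1
            rw [map_add, h1, LinearMap.mem_ker.1 q.2.2, add_zero]
          · change (φ q.1 + (q.2 : P)) - φ (ψ (φ q.1 + q.2)) = q.2
            rw [map_add ψ, h1, LinearMap.mem_ker.1 q.2.2, add_zero, add_sub_cancel_left])
        (by
          refine LinearMap.ext fun p => ?_
          change φ (ψ p) + (p - φ (ψ p)) = p
          rw [add_sub_cancel])
      have hlen2 : Module.length R P = Module.length R (Le (e j)) + Module.length R (LinearMap.ker ψ) := by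
        rw [← Module.length_prod]
        exact (E.restrictScalars R).length_eq
      have hne : Nontrivial (Le (e j)) := by
        refine ⟨⟨⟨e j, ks_self (e j)⟩, 0, fun h => (hl j).1 (congrArg Subtype.val h)⟩⟩
      have hpos : 1 ≤ Module.length R (Le (e j)) := by
        rw [Order.one_le_iff_ne_zero]
        exact (Module.length_pos_iff.2 hne).ne'
      have hle : Module.length R (LinearMap.ker ψ) ≤ n := by
        have h3 : 1 + Module.length R (LinearMap.ker ψ) ≤ 1 + (n : ℕ∞) := by
          calc 1 + Module.length R (LinearMap.ker ψ) ≤ Module.length R (Le (e j)) + Module.length R (LinearMap.ker ψ) := by gcongr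
            _ ≤ ((n + 1 : ℕ) : ℕ∞) := by rw [← hlen2]; exact hlen
            _ = 1 + (n : ℕ∞) := by rw [Nat.cast_add, Nat.cast_one, add_comm]
        exact (ENat.add_le_add_iff_left (by simp)).1 h3
      obtain ⟨r, σ, ⟨f⟩⟩ := ih (LinearMap.ker ψ) hle
      refine ⟨r + 1, Fin.cons j σ, ⟨E.trans (((LinearEquiv.refl B (Le (e j))).prodCongr f).trans
        (Fin.consLinearEquiv B fun t : Fin (r + 1) => Le (e ((Fin.cons j σ : Fin (r + 1) → ι) t))))⟩⟩

end Pool.Agent.CDC
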