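import Pool.Agent.Lib.MP_a20de0_al.CDC.CornerMod
import Pool.Agent.Lib.MP_a20de0_al.CDC.KS

set_option autoImplicit false

/-! CDC-Base.  If `f M` is projective over the corner, `f = ∑ e_j` (orthogonal local idempotents), there is `u : ⊕ A e_(σ t) → M` which is
bijective after multiplication by `f`: `KS` for the ring `hf.Corner` and its idempotents `g j = e_j` (`∑ g j = 1` in the corner, `Loc_corner`)
gives `θ : XM g σ ≃ f M`; let `y t ∈ e_(σ t) M` be the image of the generator `g_(σ t)` of the `t`-th summand; `exists_map`.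
`f M ⊆ range u`: `θ` is onto.  `f ker u = 0`: for `x ∈ ker u`, `f x ∈ f XM` corresponds to an element of `XM g σ` killed by `θ`. -/

namespace Pool.Agent.CDC
open CategoryTheory

private theorem Base_mul {B : Type} [Ring B] {a : B} (ha : IsIdempotentElem a) (b : Le a) : (b : B) * a = b := by
  obtain ⟨c, hc⟩ := Submodule.mem_span_singleton.1 b.2
  rw [← hc, smul_eq_mul, mul_assoc, ha.eq]

private theorem Base_mem {B : Type} [Ring B] {a b : B} (h : b * a = b) : b ∈ Submodule.span B ({a} : Set B) :=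
  Submodule.mem_span_singleton.2 ⟨b, h⟩

/-- the generator of the `t`-th summand -/
private def Base_gen {B : Type} [Ring B] {ι : Type} (g : ι → B) {r : ℕ} (σ : Fin r → ι) (t : Fin r) : XM g σ :=
  Pi.single t ⟨g (σ t), Submodule.mem_span_singleton_self _⟩

private theorem Base_sum {B : Type} [Ring B] {ι : Type} {g : ι → B} (hg : ∀ i, IsIdempotentElem (g i)) {r : ℕ} (σ : Fin r → ι)
    (w : XM g σ) : w = ∑ t, (w t : B) • Base_gen g σ t := by
  funext s
  rw [Finset.sum_apply, Finset.sum_eq_single s]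
  · apply Subtype.ext
    rw [Pi.smul_apply, Submodule.coe_smul, Base_gen, Pi.single_eq_same, smul_eq_mul, Base_mul (hg (σ s))]
  · intro t _ ht
    rw [Pi.smul_apply, Base_gen, Pi.single_eq_of_ne ht.symm, smul_zero]
  · intro h
    exact absurd (Finset.mem_univ s) h

private theorem Base_gen_smul {B : Type} [Ring B] {ι : Type} {g : ι → B} (hg : ∀ i, IsIdempotentElem (g i)) {r : ℕ} (σ : Fin r → ι)
    (t : Fin r) : g (σ t) • Base_gen g σ t = Base_gen g σ t := by
  unfold Base_gen
  rw [← Pi.single_smul]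
  congr 1
  exact Subtype.ext (hg (σ t)).eq

theorem base_case (R : Type) [CommRing R] [IsArtinianRing R] {A : Type} [Ring A] [Algebra R A]
    [Module.Finite R A] {ι : Type} [Fintype ι] {e : ι → A} (he : ∀ i, IsIdempotentElem (e i))
    (ho : ∀ i j, i ≠ j → e i * e j = 0) (hl : ∀ i, Loc (e i)) (hf : IsIdempotentElem (∑ i, e i))
    (M : Type) [AddCommGroup M] [Module R M] [Module A M] [IsScalarTower R A M] [Module.Finite R M]
    (hM : Module.Projective hf.Corner (FM hf M)) :
    ∃ (r : ℕ) (σ : Fin r → ι) (u : XM e σ →ₗ[A] M),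
      (∀ x : M, (∑ i, e i) • x ∈ LinearMap.range u) ∧ ∀ x : XM e σ, u x = 0 → (∑ i, e i) • x = 0 := by
  have hl1 : ∀ j, (∑ i, e i) * e j = e j := fun j => by
    rw [Finset.sum_mul, Finset.sum_eq_single j]
    · exact (he j).eq
    · exact fun i _ hi => ho i j hi
    · exact fun h => absurd (Finset.mem_univ j) h
  have hr1 : ∀ j, e j * (∑ i, e i) = e j := fun j => by
    rw [Finset.mul_sum, Finset.sum_eq_single j]
    · exact (he j).eq
    · exact fun i _ hi => ho j i hi.symm
    · exact fun h => absurd (Finset.mem_univ j) h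
  let g : ι → hf.Corner := fun j => mkC hf (e j) ⟨hl1 j, hr1 j⟩
  have hg1 : ∀ j, (g j).1 = e j := fun j => rfl
  have hgi : ∀ j, IsIdempotentElem (g j) := fun j => Subtype.ext (he j).eq
  let vC : hf.Corner →+ A := { toFun := fun a => a.1, map_zero' := corner_zero hf, map_add' := corner_add hf }
  let vM : FM hf M →+ M := { toFun := fun a => a.1, map_zero' := rfl, map_add' := FM_add hf M }
  have hgs : ∑ j, g j = 1 := by
    apply Subtype.ext
    change vC (∑ j, g j) = _
    rw [map_sum]
    rfl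
  have hgl : ∀ j, Loc (g j) := fun j => (Loc_corner hf (g j)).2 (hl j)
  obtain ⟨r, σ, ⟨θ⟩⟩ := KS R g hgi hgs hgl (FM hf M)
  have hy : ∀ t, g (σ t) • θ.symm (Base_gen g σ t) = θ.symm (Base_gen g σ t) := fun t => by
    rw [← map_smul, Base_gen_smul hgi]
  have hθ : ∀ w : XM g σ, (θ.symm w).1 = ∑ t, (w t : hf.Corner).1 • (θ.symm (Base_gen g σ t)).1 := fun w => by
    conv_lhs => rw [Base_sum hgi σ w, map_sum]
    change vM _ = _
    rw [map_sum]
    refine Finset.sum_congr rfl fun t _ => ?_
    rw [map_smul]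
    rfl
  obtain ⟨u, hu⟩ := exists_map he σ (fun t => (θ.symm (Base_gen g σ t)).1) fun t => congrArg Subtype.val (hy t)
  refine ⟨r, σ, u, fun x => ?_, fun x hx => ?_⟩
  · have hz : (∑ i, e i) • ((∑ i, e i) • x) = (∑ i, e i) • x := by rw [← mul_smul, hf.eq]
    let z : FM hf M := mkF hf M hz
    let w : XM g σ := θ z
    have hw : ∀ t, (w t : hf.Corner).1 * e (σ t) = (w t : hf.Corner).1 := fun t => congrArg Subtype.val (Base_mul (hgi (σ t)) (w t))
    refine ⟨fun t => ⟨(w t : hf.Corner).1, Base_mem (hw t)⟩, ?_⟩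
    rw [hu]
    have h1 := hθ w
    have h2 : θ.symm w = z := θ.symm_apply_apply z
    rw [h2] at h1
    exact h1.symm
  · have hxe : ∀ t, (x t : A) * e (σ t) = x t := fun t => Base_mul (he (σ t)) (x t)
    have hc : ∀ t, (∑ i, e i) * ((∑ i, e i) * (x t : A)) = (∑ i, e i) * (x t : A) ∧
        ((∑ i, e i) * (x t : A)) * (∑ i, e i) = (∑ i, e i) * (x t : A) := fun t => by
      refine ⟨by rw [← mul_assoc, hf.eq], ?_⟩
      conv_lhs => rw [← hxe t]
      rw [mul_assoc, mul_assoc (x t : A), hr1, hxe t]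
    let w : XM g σ := fun t => ⟨mkC hf ((∑ i, e i) * (x t : A)) (hc t), Base_mem (Subtype.ext (by
      change ((∑ i, e i) * (x t : A)) * e (σ t) = (∑ i, e i) * (x t : A)
      rw [mul_assoc, hxe t]))⟩
    have h1 := hθ w
    have h2 : ∑ t, (w t : hf.Corner).1 • (θ.symm (Base_gen g σ t)).1 = 0 := by
      have h3 : ∀ t, (w t : hf.Corner).1 • (θ.symm (Base_gen g σ t)).1 =
          (∑ i, e i) • ((x t : A) • (θ.symm (Base_gen g σ t)).1) := fun t => by
        change ((∑ i, e i) * (x t : A)) • _ = _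
        rw [mul_smul]
      simp only [h3]
      rw [← Finset.smul_sum, ← hu, hx, smul_zero]
    rw [h2] at h1
    have h4 : θ.symm w = 0 := Subtype.ext h1
    have h5 : w = 0 := by rw [← θ.apply_symm_apply w, h4, map_zero]
    funext t
    apply Subtype.ext
    have h6 := congrArg Subtype.val (congrArg Subtype.val (congrFun h5 t))
    exact h6

end Pool.Agent.CDC
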