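import Pool.Agent.Lib.MP_a20de0_al.CDC.PdStep
import Pool.Agent.Lib.MP_a20de0_al.CDC.Base

set_option autoImplicit false

/-! CDC-ChainEx.  (C) of the paper.  Induction on `k`: if `HasProjectiveDimensionLT (f M) k` then there is `s` with `Chain e s M`, for all `M`.
`k = 0`: `f M = 0`, so `e_j M = e_j f M = 0`: `Chain 0`.  `k = 1`: `f M` is projective, `base_case`: `Chain 1` (`e_j x = e_j f x = 0` on `ker u`).
`k + 2`: `exists_approx`, `pd_step` (`FM_XM_proj`), induction hypothesis for `ker u` (a finite `R`-module, as `XM e σ` is). -/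

namespace Pool.Agent.CDC
open CategoryTheory

private theorem ChainEx_ker (R : Type) [CommRing R] [IsArtinianRing R] {A : Type} [Ring A] [Algebra R A]
    {X M : Type} [AddCommGroup X] [Module R X] [Module A X] [IsScalarTower R A X] [Module.Finite R X]
    [AddCommGroup M] [Module A M] (u : X →ₗ[A] M) : Module.Finite R ↥(LinearMap.ker u) := by
  have h : Module.Finite R ↥((LinearMap.ker u).restrictScalars R) := inferInstance
  exact h

private theorem ChainEx_aux (R : Type) [CommRing R] [IsArtinianRing R] {A : Type} [Ring A] [Algebra R A]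
    [Module.Finite R A] {ι : Type} [Fintype ι] {e : ι → A} (he : ∀ i, IsIdempotentElem (e i))
    (ho : ∀ i j, i ≠ j → e i * e j = 0) (hl : ∀ i, Loc (e i)) (hf : IsIdempotentElem (∑ i, e i)) (k : ℕ) :
    ∀ (M : Type) [AddCommGroup M] [Module R M] [Module A M] [IsScalarTower R A M] [Module.Finite R M],
      HasProjectiveDimensionLT (ModuleCat.of hf.Corner (FM hf M)) (k + 1) → ∃ s, Chain e s M := by
  classical
  have hl1 : ∀ j, e j * (∑ i, e i) = e j := fun j => by
    rw [Finset.mul_sum, Finset.sum_eq_single j]
    · exact (he j).eq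
    · intro i _ hi
      exact ho j i hi.symm
    · intro h
      exact absurd (Finset.mem_univ j) h
  have hl2 : ∀ j, (∑ i, e i) * e j = e j := fun j => by
    rw [Finset.sum_mul, Finset.sum_eq_single j]
    · exact (he j).eq
    · intro i _ hi
      exact ho i j hi
    · intro h
      exact absurd (Finset.mem_univ j) h
  induction k with
  | zero =>
    intro M _ _ _ _ _ h
    have h1 : Projective (ModuleCat.of hf.Corner (FM hf M)) := projective_iff_hasProjectiveDimensionLT_one.2 h
    have h2 : Module.Projective hf.Corner (FM hf M) := (IsProjective.iff_projective _).2 h1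
    obtain ⟨r, σ, u, hu1, hu2⟩ := base_case R he ho hl hf M h2
    refine ⟨1, r, σ, u, ?_, ?_⟩
    · intro j x
      obtain ⟨y, hy⟩ := hu1 x
      refine ⟨e j • y, ?_⟩
      rw [map_smul, hy, ← mul_smul, hl1]
    · intro j x
      have h3 := hu2 x.1 x.2
      apply Subtype.ext
      show e j • x.1 = 0
      rw [← hl1 j, mul_smul, h3, smul_zero]
  | succ k ih =>
    intro M _ _ _ _ _ h
    obtain ⟨r, σ, u, hu⟩ := exists_approx R he M
    have hu1 : ∀ x : M, (∑ i, e i) • x ∈ LinearMap.range u := by
      intro x
      rw [Finset.sum_smul]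
      exact sum_mem fun i _ => hu i x
    have hX : Module.Projective hf.Corner (FM hf (XM e σ)) :=
      FM_XM_proj hf he (fun i => mkC hf (e i) ⟨hl2 i, hl1 i⟩) (fun i => rfl) σ
    have h1 := pd_step hf u hu1 hX k h
    have : Module.Finite R (XM e σ) := by
      have h3 : ∀ t, Module.Finite R (Le (e (σ t))) := fun t => by
        have h4 : Module.Finite R ↥((Submodule.span A ({e (σ t)} : Set A)).restrictScalars R) := inferInstance
        exact h4
      exact Module.Finite.pi
    have : Module.Finite R ↥(LinearMap.ker u) := ChainEx_ker R u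
    obtain ⟨s, hs⟩ := ih (↥(LinearMap.ker u)) h1
    exact ⟨s + 1, r, σ, u, hu, hs⟩

theorem exists_chain (R : Type) [CommRing R] [IsArtinianRing R] {A : Type} [Ring A] [Algebra R A]
    [Module.Finite R A] {ι : Type} [Fintype ι] {e : ι → A} (he : ∀ i, IsIdempotentElem (e i))
    (ho : ∀ i j, i ≠ j → e i * e j = 0) (hl : ∀ i, Loc (e i)) (hf : IsIdempotentElem (∑ i, e i))
    (hgl : Nonempty ι → FinGl hf.Corner)
    (M : Type) [AddCommGroup M] [Module R M] [Module A M] [IsScalarTower R A M] [Module.Finite R M] :
    ∃ s, Chain e s M := by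
  rcases isEmpty_or_nonempty ι with h | h
  · exact ⟨0, fun j => h.elim j⟩
  · obtain ⟨m, hm⟩ := hgl h
    have h1 := hm (ModuleCat.of hf.Corner (FM hf M))
    have h2 : HasProjectiveDimensionLT (ModuleCat.of hf.Corner (FM hf M)) (m + 1) :=
      hasProjectiveDimensionLT_of_ge _ m (m + 1) (Nat.le_succ m)
    exact ChainEx_aux R he ho hl hf m M h2

end Pool.Agent.CDC
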