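import Pool.Agent.Lib.MP_a20de0_al.CDC.LenAdd

set_option autoImplicit false

/-! CDC-QLem.  The property `Q` (integer combination of the `A e_j`) and the modules `XM e σ`. -/

namespace Pool.Agent.CDC

variable (R : Type) [CommRing R] [IsArtinianRing R] {A : Type} [Ring A] [Algebra R A] [Module.Finite R A]
  {ι : Type} [Fintype ι] {e : ι → A}

theorem Q_congr {M M' : Type} [AddCommGroup M] [Module R M] [Module A M] [IsScalarTower R A M]
    [AddCommGroup M'] [Module R M'] [Module A M'] [IsScalarTower R A M'] (f : M ≃ₗ[A] M')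
    (h : Q R e M) : Q R e M' := by
  obtain ⟨x, hx⟩ := h
  exact ⟨x, fun a ha => by rw [← len_congr R a f]; exact hx a ha⟩

theorem Q_of_subsingleton {M : Type} [AddCommGroup M] [Module R M] [Module A M] [IsScalarTower R A M]
    [Subsingleton M] : Q R e M := by
  refine ⟨fun _ => 0, fun a _ => ?_⟩
  rw [len_of_kill R (fun x => Subsingleton.elim _ _)]
  simp

theorem Q_quot {M : Type} [AddCommGroup M] [Module R M] [Module A M]
    [IsScalarTower R A M] [Module.Finite R M] (N : Submodule A M) (h1 : Q R e M) (h2 : Q R e N) :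
    Q R e (M ⧸ N) := by
  obtain ⟨x, hx⟩ := h1
  obtain ⟨y, hy⟩ := h2
  refine ⟨fun j => x j - y j, fun a ha => ?_⟩
  have h3 := len_add R ha N
  have h4 : (len R a M : ℤ) = len R a N + len R a (M ⧸ N) := by exact_mod_cast h3
  have h5 := hx a ha
  have h6 := hy a ha
  simp only [sub_mul, Finset.sum_sub_distrib]
  linarith

private theorem finite_Le (a : A) : Module.Finite R (Le a) := by
  have h : Module.Finite R ((Submodule.span A ({a} : Set A)).restrictScalars R) := inferInstance
  exact h

theorem Q_XM {r : ℕ} (σ : Fin r → ι) : Q R e (XM e σ) := by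
  classical
  have hf : ∀ t : Fin r, Module.Finite R (Le (e (σ t))) := fun t => finite_Le R (e (σ t))
  refine ⟨fun j => ∑ t : Fin r, if σ t = j then 1 else 0, fun a ha => ?_⟩
  have h := len_pi R ha (fun t => Le (e (σ t)))
  have h' : (len R a (XM e σ) : ℤ) = ∑ t, (len R a (Le (e (σ t))) : ℤ) := by
    rw [← Nat.cast_sum, ← h]
  rw [h']
  simp only [Finset.sum_mul, ite_mul, one_mul, zero_mul]
  rw [Finset.sum_comm]
  simp

end Pool.Agent.CDC
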