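import Pool.Agent.Lib.MP_a20de0_al.CDC.Filt
import Pool.Agent.Lib.MP_a20de0_al.CDC.QLem
import Pool.Agent.Lib.MP_a20de0_al.CDC.XMod

set_option autoImplicit false

/-! CDC-Claim.  Claim (D) of the paper, by induction on `s`. -/

namespace Pool.Agent.CDC
open CategoryTheory

/-- submodules (over `A`) of a finite `R`-module are finite over `R` -/
private theorem finite_sub (R : Type) [CommRing R] [IsArtinianRing R] {A : Type} [Ring A] [Algebra R A]
    {M : Type} [AddCommGroup M] [Module R M] [Module A M] [IsScalarTower R A M] [Module.Finite R M]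
    (N : Submodule A M) : Module.Finite R N :=
  Module.Finite.of_injective (N.subtype.restrictScalars R) N.subtype_injective

private theorem finite_XM (R : Type) [CommRing R] [IsArtinianRing R] {A : Type} [Ring A] [Algebra R A]
    [Module.Finite R A] {ι : Type} (e : ι → A) {r : ℕ} (σ : Fin r → ι) : Module.Finite R (XM e σ) := by
  have : ∀ t, Module.Finite R (Le (e (σ t))) := fun t => finite_sub R _
  exact Module.Finite.pi

theorem chain_claim (R : Type) [CommRing R] [IsArtinianRing R] {A : Type} [Ring A] [Algebra R A]
    [Module.Finite R A] {ι : Type} [Fintype ι] {e : ι → A} {S : Type} [AddCommGroup S] [Module A S]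
    (he : ∀ i, IsIdempotentElem (e i)) {m0 : ℕ} (hS : SData e S m0)
    (s : ℕ) : ∀ (K : Type) [AddCommGroup K] [Module R K] [Module A K] [IsScalarTower R A K]
      [Module.Finite R K], Chain e s K →
      (∃ j, m0 ≤ j ∧ ¬ T A S K j) ∨ ((∀ j, T A S K j) ∧ Q R e K) := by
  induction s with
  | zero =>
    intro K _ _ _ _ _ hK
    have hK' : Kill e K := hK
    rcases subsingleton_or_nontrivial K with h | h
    · exact Or.inr ⟨fun j => T_of_subsingleton j, Q_of_subsingleton R⟩
    · exact Or.inl ⟨m0, le_rfl, T_filt_ne R hS K hK'⟩
  | succ s ih =>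
    intro K _ _ _ _ _ hK
    obtain ⟨r, σ, u, hu, hch⟩ := hK
    have hfX : Module.Finite R (XM e σ) := finite_XM R e σ
    have hfK : Module.Finite R (LinearMap.ker u) := finite_sub R _
    have hkill : Kill e (K ⧸ LinearMap.range u) := by
      intro j x
      obtain ⟨y, rfl⟩ := Submodule.Quotient.mk_surjective _ x
      rw [← Submodule.Quotient.mk_smul, Submodule.Quotient.mk_eq_zero]
      exact hu j y
    rcases ih (LinearMap.ker u) hch with ⟨j, hj, hT⟩ | ⟨hT, hQ⟩
    · left
      refine ⟨j + 1, by omega, fun hK1 => hT ?_⟩
      have h2 : T A S (K ⧸ LinearMap.range u) (j + 1 + 1) := T_filt R hS _ hkill _ (by omega)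
      have h3 : T A S (LinearMap.range u) (j + 1) := T_sub _ _ hK1 h2
      have h4 : T A S (XM e σ ⧸ LinearMap.ker u) (j + 1) := (T_congr u.quotKerEquivRange _).2 h3
      exact T_sub _ _ (T_XM he hS.kill σ j) h4
    · have hI : ∀ j, T A S (LinearMap.range u) j := by
        intro j
        cases j with
        | zero =>
          rw [T_zero_iff]
          intro g
          have h1 : g.comp u.rangeRestrict = 0 := T_zero_iff.1 (T_XM he hS.kill σ 0) _
          ext x
          obtain ⟨y, hy⟩ := u.surjective_rangeRestrict x
          have h2 := LinearMap.congr_fun h1 y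
          rw [LinearMap.comp_apply, hy] at h2
          exact h2
        | succ j =>
          exact (T_congr u.quotKerEquivRange _).1 (T_quot _ _ (hT j) (T_XM he hS.kill σ (j + 1)))
      have hQI : Q R e (LinearMap.range u) :=
        Q_congr R u.quotKerEquivRange (Q_quot R _ (Q_XM R σ) hQ)
      rcases subsingleton_or_nontrivial (K ⧸ LinearMap.range u) with h | h
      · right
        have htop : LinearMap.range u = ⊤ := Submodule.Quotient.subsingleton_iff.1 h
        have f : LinearMap.range u ≃ₗ[A] K := LinearEquiv.ofTop _ htop
        exact ⟨fun j => (T_congr f j).1 (hI j), Q_congr R f hQI⟩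
      · left
        refine ⟨m0, le_rfl, fun hK0 => T_filt_ne R hS (K ⧸ LinearMap.range u) hkill ?_⟩
        cases hm : m0 with
        | zero =>
          rw [hm] at hK0
          rw [T_zero_iff] at hK0 ⊢
          intro g
          have h1 := hK0 (g.comp (LinearMap.range u).mkQ)
          ext x
          have h2 := LinearMap.congr_fun h1 x
          exact h2
        | succ j =>
          rw [hm] at hK0
          exact T_quot _ _ (hI j) hK0

end Pool.Agent.CDC
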