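import Pool.Agent.Lib.MP_a20de0_al.CDC.Defs

set_option autoImplicit false

/-! CDC-CornerAlg.  The corner ring `f A f` (`hf.Corner` of Mathlib, file Mathlib/RingTheory/Idempotents.lean) as an `R`-algebra,
and elementary transfers.  NOTE: write `a.1` for the underlying element of `a : hf.Corner`. -/

namespace Pool.Agent.CDC
open CategoryTheory

variable {R : Type} [CommRing R] {A : Type} [Ring A] [Algebra R A] {f : A} (hf : IsIdempotentElem f)

/-- the elements of the corner -/
theorem corner_mem (a : hf.Corner) : f * a.1 = a.1 ∧ a.1 * f = a.1 :=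
  (Subsemigroup.mem_corner_iff hf).mp a.2

/-- build an element of the corner -/
def mkC (a : A) (h : f * a = a ∧ a * f = a) : hf.Corner :=
  ⟨a, (Subsemigroup.mem_corner_iff hf).mpr h⟩

@[simp] theorem mkC_val (a : A) (h : f * a = a ∧ a * f = a) : (mkC hf a h).1 = a := rfl

theorem corner_mul (a b : hf.Corner) : (a * b).1 = a.1 * b.1 := rfl
theorem corner_add (a b : hf.Corner) : (a + b).1 = a.1 + b.1 := rfl
theorem corner_one : (1 : hf.Corner).1 = f := rfl
theorem corner_zero : (0 : hf.Corner).1 = 0 := rfl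

instance instModuleCorner : Module R hf.Corner where
  smul r a := ⟨r • a.1, (Subsemigroup.mem_corner_iff hf).mpr
    ⟨by rw [mul_smul_comm, (corner_mem hf a).1], by rw [smul_mul_assoc, (corner_mem hf a).2]⟩⟩
  one_smul a := Subtype.ext (one_smul R a.1)
  mul_smul r s a := Subtype.ext (mul_smul r s a.1)
  smul_zero r := Subtype.ext (smul_zero r)
  smul_add r a b := Subtype.ext (smul_add r a.1 b.1)
  add_smul r s a := Subtype.ext (add_smul r s a.1)
  zero_smul a := Subtype.ext (zero_smul R a.1)

theorem corner_smul (r : R) (a : hf.Corner) : (r • a).1 = r • a.1 := rfl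

noncomputable instance instAlgebraCorner : Algebra R hf.Corner :=
  Algebra.ofModule (fun r a b => Subtype.ext (smul_mul_assoc r a.1 b.1))
    (fun r a b => Subtype.ext (mul_smul_comm r a.1 b.1))

/-- the projection `a ↦ f a f` onto the corner -/
private def CornerAlg_proj : A →ₗ[R] hf.Corner where
  toFun a := mkC hf (f * a * f) ⟨by rw [← mul_assoc, ← mul_assoc, hf.eq], by rw [mul_assoc, hf.eq]⟩
  map_add' a b := Subtype.ext (by
    show f * (a + b) * f = f * a * f + f * b * f
    rw [mul_add, add_mul])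
  map_smul' r a := Subtype.ext (by
    show f * (r • a) * f = r • (f * a * f)
    rw [mul_smul_comm, smul_mul_assoc])

instance instFiniteCorner [IsArtinianRing R] [Module.Finite R A] : Module.Finite R hf.Corner := by
  refine Module.Finite.of_surjective (CornerAlg_proj (R := R) hf) fun a => ⟨a.1, Subtype.ext ?_⟩
  show f * a.1 * f = a.1
  rw [(corner_mem hf a).1, (corner_mem hf a).2]

private theorem CornerAlg_pow (x : hf.Corner) (n : ℕ) : (x ^ (n + 1)).1 = x.1 ^ (n + 1) := by
  induction n with
  | zero => rw [zero_add, pow_one, pow_one]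
  | succ n ih => rw [pow_succ, pow_succ x.1 (n + 1), ← ih]; rfl

private theorem CornerAlg_nil (x : hf.Corner) : IsNilpotent x ↔ IsNilpotent x.1 := by
  constructor
  · rintro ⟨n, hn⟩
    refine ⟨n + 1, ?_⟩
    rw [← CornerAlg_pow, pow_succ, hn, zero_mul]
    rfl
  · rintro ⟨n, hn⟩
    refine ⟨n + 1, Subtype.ext ?_⟩
    rw [CornerAlg_pow, pow_succ, hn, zero_mul]
    rfl

private theorem CornerAlg_mem {a : hf.Corner} {x : A} (h : a.1 * x * a.1 = x) : f * x = x ∧ x * f = x := by
  obtain ⟨h1, h2⟩ := corner_mem hf a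
  constructor
  · rw [← h, ← mul_assoc, ← mul_assoc, h1]
  · rw [← h, mul_assoc, h2]

theorem Loc_corner (a : hf.Corner) : Loc a ↔ Loc a.1 := by
  constructor
  · rintro ⟨h0, h⟩
    refine ⟨fun h' => h0 (Subtype.ext h'), fun x hx => ?_⟩
    have hx' := CornerAlg_mem hf hx
    rcases h (mkC hf x hx') (Subtype.ext hx) with ⟨y, h1, h2, h3⟩ | h1
    · exact Or.inl ⟨y.1, congrArg Subtype.val h1, congrArg Subtype.val h2, congrArg Subtype.val h3⟩
    · exact Or.inr ((CornerAlg_nil hf _).1 h1)
  · rintro ⟨h0, h⟩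
    refine ⟨fun h' => h0 (congrArg Subtype.val h'), fun x hx => ?_⟩
    rcases h x.1 (congrArg Subtype.val hx) with ⟨y, h1, h2, h3⟩ | h1
    · exact Or.inl ⟨mkC hf y (CornerAlg_mem hf h1), Subtype.ext h1, Subtype.ext h2, Subtype.ext h3⟩
    · exact Or.inr ((CornerAlg_nil hf _).2 h1)

/-- finite global dimension is invariant under ring isomorphism (restriction of scalars is an equivalence of the module categories) -/
theorem FinGl_of_ringEquiv {A B : Type} [Ring A] [Ring B] (φ : A ≃+* B) (h : FinGl A) : FinGl B := by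
  obtain ⟨m, hm⟩ := h
  refine ⟨m + 1, fun N => ?_⟩
  letI : Module A N := Module.compHom N (RingHomClass.toRingHom φ)
  have hm1 := hm (ModuleCat.of A N)
  have hm2 : HasProjectiveDimensionLE (ModuleCat.of A N) m := hasProjectiveDimensionLT_of_ge (ModuleCat.of A N) m (m + 1) (Nat.le_succ m)
  have hp1 := RingHomInvPair.of_ringEquiv φ
  have hp2 := RingHomInvPair.of_ringEquiv φ.symm
  let e' : (ModuleCat.of A N) ≃ₛₗ[RingHomClass.toRingHom φ] N :=
    { toFun := fun x => x
      invFun := fun x => x
      map_add' := fun _ _ => rfl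
      map_smul' := fun _ _ => rfl
      left_inv := fun _ => rfl
      right_inv := fun _ => rfl }
  exact ModuleCat.hasProjectiveDimensionLE_of_semiLinearEquiv φ e' m

/-- a corner of a corner (`hg.Corner ≃+* hg'.Corner`) -/
theorem FinGl_corner_corner (g : hf.Corner) (hg : IsIdempotentElem g) (hg' : IsIdempotentElem g.1)
    (h : FinGl hg'.Corner) : FinGl hg.Corner := by
  have hx : ∀ x : hg'.Corner, f * x.1 = x.1 ∧ x.1 * f = x.1 := by
    intro x
    obtain ⟨h1, h2⟩ := corner_mem hf g
    obtain ⟨h3, h4⟩ := corner_mem hg' x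
    constructor
    · rw [← h3, ← mul_assoc, h1]
    · rw [← h4, mul_assoc, h2]
  refine FinGl_of_ringEquiv (A := hg'.Corner) (B := hg.Corner) ?_ h
  exact
    { toFun := fun x => mkC hg (mkC hf x.1 (hx x)) ⟨Subtype.ext (corner_mem hg' x).1, Subtype.ext (corner_mem hg' x).2⟩
      invFun := fun y => mkC hg' y.1.1 ⟨congrArg Subtype.val (corner_mem hg y).1, congrArg Subtype.val (corner_mem hg y).2⟩
      left_inv := fun _ => rfl
      right_inv := fun _ => rfl
      map_mul' := fun _ _ => rfl
      map_add' := fun _ _ => rfl }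

end Pool.Agent.CDC
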