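import Pool.Agent.Lib.MP_a20de0_al.CDC.CornerAlg
import Pool.Agent.Lib.MP_a20de0_al.CDC.XMod

set_option autoImplicit false

/-! CDC-CornerMod.  For an `A`-module `M` the module `f M = {x | f x = x}` over the corner ring `f A f`: `FM hf M`. -/

namespace Pool.Agent.CDC
open CategoryTheory

/-- `{x : M | f x = x}` -/
def fixS {A : Type} [Ring A] (f : A) (M : Type) [AddCommGroup M] [Module A M] : AddSubgroup M where
  carrier := {x | f • x = x}
  zero_mem' := smul_zero f
  add_mem' := fun {a b} ha hb => by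
    show f • (a + b) = a + b
    rw [smul_add, show f • a = a from ha, show f • b = b from hb]
  neg_mem' := fun {a} ha => by
    show f • (-a) = -a
    rw [smul_neg, show f • a = a from ha]

/-- `f M` -/
def FM {A : Type} [Ring A] {f : A} (_ : IsIdempotentElem f) (M : Type) [AddCommGroup M] [Module A M] : Type :=
  ↥(fixS f M)

variable {R : Type} [CommRing R] {A : Type} [Ring A] [Algebra R A] {f : A} (hf : IsIdempotentElem f)
  (M : Type) [AddCommGroup M] [Module A M]

instance : AddCommGroup (FM hf M) := inferInstanceAs (AddCommGroup ↥(fixS f M))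

/-- build an element of `f M` -/
def mkF {x : M} (h : f • x = x) : FM hf M := ⟨x, h⟩

theorem FM_mem (x : FM hf M) : f • x.1 = x.1 := x.2

theorem FM_add (x y : FM hf M) : (x + y).1 = x.1 + y.1 := rfl

instance : Module hf.Corner (FM hf M) where
  smul a x := ⟨a.1 • x.1, by
    show f • (a.1 • x.1) = a.1 • x.1
    rw [← mul_smul, (corner_mem hf a).1]⟩
  one_smul x := Subtype.ext (FM_mem hf M x)
  mul_smul a b x := Subtype.ext (mul_smul a.1 b.1 x.1)
  smul_zero a := Subtype.ext (smul_zero a.1)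
  smul_add a x y := Subtype.ext (smul_add a.1 x.1 y.1)
  add_smul a b x := Subtype.ext (add_smul a.1 b.1 x.1)
  zero_smul x := Subtype.ext (zero_smul A x.1)

theorem FM_smul (a : hf.Corner) (x : FM hf M) : (a • x).1 = a.1 • x.1 := rfl

section
variable [Module R M] [IsScalarTower R A M]

instance : Module R (FM hf M) where
  smul r x := ⟨r • x.1, by
    show f • (r • x.1) = r • x.1
    rw [← algebraMap_smul A r x.1, ← mul_smul, ← Algebra.commutes, mul_smul, FM_mem hf M x]⟩
  one_smul x := Subtype.ext (one_smul R x.1)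
  mul_smul a b x := Subtype.ext (mul_smul a b x.1)
  smul_zero a := Subtype.ext (smul_zero a)
  smul_add a x y := Subtype.ext (smul_add a x.1 y.1)
  add_smul a b x := Subtype.ext (add_smul a b x.1)
  zero_smul x := Subtype.ext (zero_smul R x.1)

instance : IsScalarTower R hf.Corner (FM hf M) where
  smul_assoc r a x := Subtype.ext (smul_assoc r a.1 x.1)

/-- `x ↦ f x` -/
private def CornerMod_proj : M →ₗ[R] FM hf M where
  toFun x := mkF hf M (x := f • x) (by rw [← mul_smul, hf.eq])
  map_add' x y := Subtype.ext (smul_add f x y)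
  map_smul' r x := Subtype.ext (by
    show f • (r • x) = r • (f • x)
    rw [← algebraMap_smul A r x, ← algebraMap_smul A r (f • x), ← mul_smul, ← mul_smul, Algebra.commutes])

instance instFiniteFM [IsArtinianRing R] [Module.Finite R M] : Module.Finite R (FM hf M) :=
  Module.Finite.of_surjective (CornerMod_proj (R := R) hf M) fun x => ⟨x.1, Subtype.ext (FM_mem hf M x)⟩

end

variable {M} {N : Type} [AddCommGroup N] [Module A N]

/-- the functor `M ↦ f M` on maps -/
def FMap (u : M →ₗ[A] N) : FM hf M →ₗ[hf.Corner] FM hf N where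
  toFun x := ⟨u x.1, by
    show f • u x.1 = u x.1
    rw [← map_smul, FM_mem hf M x]⟩
  map_add' x y := Subtype.ext (map_add u x.1 y.1)
  map_smul' a x := Subtype.ext (map_smul u a.1 x.1)

private theorem CornerMod_mem1 (a : hf.Corner) (x : FM hf (Le a.1)) :
    f * (x.1 : A) = (x.1 : A) ∧ (x.1 : A) * f = (x.1 : A) := by
  refine ⟨congrArg Subtype.val (FM_mem hf (Le a.1) x), ?_⟩
  obtain ⟨c, hc⟩ := Submodule.mem_span_singleton.1 x.1.2
  rw [← hc, smul_eq_mul, mul_assoc, (corner_mem hf a).2]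

private theorem CornerMod_mem2 (a : hf.Corner) (x : FM hf (Le a.1)) :
    mkC hf (x.1 : A) (CornerMod_mem1 hf a x) ∈ Submodule.span hf.Corner ({a} : Set hf.Corner) := by
  obtain ⟨c, hc⟩ := Submodule.mem_span_singleton.1 x.1.2
  refine Submodule.mem_span_singleton.2
    ⟨mkC hf (f * c * f) ⟨by rw [← mul_assoc, ← mul_assoc, hf.eq], by rw [mul_assoc, hf.eq]⟩, Subtype.ext ?_⟩
  show f * c * f * a.1 = (x.1 : A)
  rw [mul_assoc, (corner_mem hf a).1, mul_assoc, ← smul_eq_mul c, hc]
  exact (CornerMod_mem1 hf a x).1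

private theorem CornerMod_mem3 (a : hf.Corner) (y : Le a) : (y : hf.Corner).1 ∈ Submodule.span A ({a.1} : Set A) := by
  obtain ⟨b, hb⟩ := Submodule.mem_span_singleton.1 y.2
  exact Submodule.mem_span_singleton.2 ⟨b.1, congrArg Subtype.val hb⟩

/-- `f (A a) ≅ (f A f) a` for `a ∈ f A f` -/
private def CornerMod_equiv (a : hf.Corner) : FM hf (Le a.1) ≃ₗ[hf.Corner] Le a where
  toFun x := ⟨mkC hf (x.1 : A) (CornerMod_mem1 hf a x), CornerMod_mem2 hf a x⟩
  map_add' x y := rfl
  map_smul' b x := rfl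
  invFun y := mkF hf (Le a.1) (x := ⟨(y : hf.Corner).1, CornerMod_mem3 hf a y⟩)
    (Subtype.ext (corner_mem hf (y : hf.Corner)).1)
  left_inv x := rfl
  right_inv y := rfl

/-- `f (A a) ≅ (f A f) a` for `a ∈ f A f` -/
theorem FM_Le (a : hf.Corner) : Nonempty (FM hf (Le a.1) ≃ₗ[hf.Corner] Le a) :=
  ⟨CornerMod_equiv hf a⟩

/-- `f ∏ M_t = ∏ f M_t` -/
private def CornerMod_pi {r : ℕ} (P : Fin r → Type) [∀ t, AddCommGroup (P t)] [∀ t, Module A (P t)] :
    FM hf (∀ t, P t) ≃ₗ[hf.Corner] ∀ t, FM hf (P t) where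
  toFun x t := mkF hf (P t) (x := x.1 t) (congrFun (FM_mem hf (∀ t, P t) x) t)
  map_add' x y := rfl
  map_smul' b x := rfl
  invFun y := mkF hf (∀ t, P t) (x := fun t => (y t).1) (funext fun t => FM_mem hf (P t) (y t))
  left_inv x := rfl
  right_inv y := rfl

/-- `f (⊕ A e_(σ t)) ≅ ⊕ (f A f) e_(σ t)`; `g j` is `e_j` as an element of the corner. -/
theorem FM_XM {ι : Type} {e : ι → A} (g : ι → hf.Corner) (hg : ∀ i, (g i).1 = e i) {r : ℕ} (σ : Fin r → ι) :
    Nonempty (FM hf (XM e σ) ≃ₗ[hf.Corner] XM g σ) := by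
  obtain rfl : (fun i => (g i).1) = e := funext hg
  exact ⟨(CornerMod_pi hf (fun t => Le (g (σ t)).1)).trans
    (LinearEquiv.piCongrRight fun t => CornerMod_equiv hf (g (σ t)))⟩

theorem FM_XM_proj {ι : Type} {e : ι → A} (he : ∀ i, IsIdempotentElem (e i)) (g : ι → hf.Corner)
    (hg : ∀ i, (g i).1 = e i) {r : ℕ} (σ : Fin r → ι) : Module.Projective hf.Corner (FM hf (XM e σ)) := by
  obtain ⟨θ⟩ := FM_XM hf g hg σ
  have h1 : ∀ i, IsIdempotentElem (g i) := fun i => Subtype.ext (by
    show (g i).1 * (g i).1 = (g i).1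
    rw [hg i]
    exact (he i).eq)
  haveI : Module.Projective hf.Corner (XM g σ) := proj_XM h1 σ
  exact Module.Projective.of_equiv θ.symm

end Pool.Agent.CDC
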