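import Mathlib

set_option autoImplicit false

/-! Basic definitions for MP_a20de0_al (OrbitFlag). -/

namespace Pool.Agent.CDC
open CategoryTheory

/-- `Ext^j_A(M,S) = 0` -/
def T (A : Type) [Ring A] (S : Type) [AddCommGroup S] [Module A S]
    (M : Type) [AddCommGroup M] [Module A M] (j : ℕ) : Prop :=
  ∀ x : Abelian.Ext (ModuleCat.of A M) (ModuleCat.of A S) j, x = 0

/-- the left module `A a` -/
abbrev Le {A : Type} [Ring A] (a : A) : Type := ↥(Submodule.span A ({a} : Set A))

/-- direct sum of the left modules `A e_(σ t)` -/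
abbrev XM {A : Type} [Ring A] {ι : Type} (e : ι → A) {r : ℕ} (σ : Fin r → ι) : Type :=
  ∀ t, Le (e (σ t))

/-- `length_R (a M)` -/
noncomputable def len (R : Type) [CommRing R] {A : Type} [Ring A] [Algebra R A] (a : A)
    (M : Type) [AddCommGroup M] [Module R M] [Module A M] [IsScalarTower R A M] : ℕ :=
  (Module.length R (LinearMap.range (Algebra.lsmul R R M a))).toNat

/-- `M` is an integer combination of the `A e_j`, as far as the lengths of the `a M`, `a` idempotent, show. -/
def Q (R : Type) [CommRing R] {A : Type} [Ring A] [Algebra R A] {ι : Type} [Fintype ι] (e : ι → A)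
    (M : Type) [AddCommGroup M] [Module R M] [Module A M] [IsScalarTower R A M] : Prop :=
  ∃ x : ι → ℤ, ∀ a : A, IsIdempotentElem a →
    (len R a M : ℤ) = ∑ j, x j * (len R a (Le (e j)) : ℤ)

/-- the corner ring of `a` is local, in the form: each element of `a A a` is a unit of `a A a` or nilpotent -/
def Loc {A : Type} [Ring A] (a : A) : Prop :=
  a ≠ 0 ∧ ∀ x, a * x * a = x → (∃ y, a * y * a = y ∧ x * y = a ∧ y * x = a) ∨ IsNilpotent x

/-- `M` is killed by the `e_j` -/
def Kill {A : Type} [Ring A] {ι : Type} (e : ι → A) (M : Type) [AddCommGroup M] [Module A M] : Prop :=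
  ∀ j, ∀ x : M, e j • x = 0

/-- `(e_j)` (old) and `(c_b)` (new) together are a complete set of orthogonal, pairwise non-isomorphic local idempotents
(non-isomorphic in the form `e_j A c_b ⊆ J`, `c_b A c_b' ⊆ J`). -/
structure Setup {A : Type} [Ring A] {ι κ : Type} [Fintype ι] [Fintype κ] (e : ι → A) (c : κ → A) : Prop where
  idem : ∀ i, IsIdempotentElem (e i)
  idemc : ∀ b, IsIdempotentElem (c b)
  orth : ∀ i j, i ≠ j → e i * e j = 0
  orthc : ∀ b b', b ≠ b' → c b * c b' = 0
  orthl : ∀ i b, e i * c b = 0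
  orthr : ∀ i b, c b * e i = 0
  sum : (∑ i, e i) + ∑ b, c b = 1
  loc : ∀ i, Loc (e i)
  locc : ∀ b, Loc (c b)
  rad : ∀ j b, ∀ a : A, e j * a * c b ∈ (⊥ : Ideal A).jacobson
  radc : ∀ b b', b ≠ b' → ∀ a : A, c b * a * c b' ∈ (⊥ : Ideal A).jacobson

/-- the ring automorphisms which permute the `c_b` act transitively on them -/
def Trans {A : Type} [Ring A] {κ : Type} (c : κ → A) : Prop :=
  ∀ b b', ∃ φ : A ≃+* A, φ (c b) = c b' ∧ ∀ d, ∃ d', φ (c d) = c d'

/-- a semisimple module `S` killed by the `e_j`, into which all simple modules killed by the `e_j` embed, and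
`m0 = max {j : Ext^j(N,S) ≠ 0}` for each simple module `N` killed by the `e_j`. -/
structure SData {A : Type} [Ring A] {ι : Type} (e : ι → A)
    (S : Type) [AddCommGroup S] [Module A S] (m0 : ℕ) : Prop where
  semi : IsSemisimpleModule A S
  kill : Kill e S
  emb : ∀ (N : Type) [AddCommGroup N] [Module A N], IsSimpleModule A N → Kill e N → ∃ g : N →ₗ[A] S, g ≠ 0
  lo : ∀ (N : Type) [AddCommGroup N] [Module A N], IsSimpleModule A N → Kill e N → ¬ T A S N m0
  hi : ∀ (N : Type) [AddCommGroup N] [Module A N], IsSimpleModule A N → Kill e N → ∀ j, m0 < j → T A S N j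

/-- chains: `Chain 0 M` if all `e_j M = 0`; `Chain (s+1) M` if there is a map `u : ⊕ A e_(σ t) → M` with
all `e_j coker u = 0` and `Chain s (ker u)`. -/
def Chain {A : Type} [Ring A] {ι : Type} (e : ι → A) :
    ℕ → (M : Type) → [AddCommGroup M] → [Module A M] → Prop
  | 0, M, _, _ => Kill e M
  | s + 1, M, _, _ => ∃ (r : ℕ) (σ : Fin r → ι) (u : XM e σ →ₗ[A] M),
      (∀ j, ∀ x : M, e j • x ∈ LinearMap.range u) ∧ Chain e s ↥(LinearMap.ker u)

/-- finite left global dimension -/
def FinGl (A : Type) [Ring A] : Prop :=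
  ∃ m : ℕ, ∀ M : ModuleCat.{0} A, CategoryTheory.HasProjectiveDimensionLT M m

end Pool.Agent.CDC
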