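import Mathlib

set_option autoImplicit false

/-! CDC-Det.  Determinant step.  Pure linear algebra. -/

namespace Pool.Agent.CDC

/-- If for each `a` with `blk a = i` the column `a` of `M` (rows `blk k ≤ i`) is a combination of the columns `blk j < i` plus the unit vector `a`,
then the principal minors for `blk < i + 1` and `blk < i` agree.  (Column operations, or `M * U` with `U` unipotent, `Matrix.det_fromBlocks`.) -/
theorem det_block {n : ℕ} (M : Matrix (Fin n) (Fin n) ℚ) (blk : Fin n → ℕ) (i : ℕ)
    (h : ∀ a, blk a = i → ∃ x : Fin n → ℚ, ∀ k, blk k ≤ i →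
      M k a = (∑ j ∈ Finset.univ.filter (fun j => blk j < i), x j * M k j) + (if k = a then 1 else 0)) :
    Matrix.det (M.submatrix (Subtype.val : {j : Fin n // blk j < i + 1} → Fin n) Subtype.val) =
      Matrix.det (M.submatrix (Subtype.val : {j : Fin n // blk j < i} → Fin n) Subtype.val) := by
  classical
  choose! x hx using h
  have hinj : Function.Injective (Sum.elim
      (fun j : {j : Fin n // blk j < i} => (⟨j.1, Nat.lt_succ_of_lt j.2⟩ : {j : Fin n // blk j < i + 1}))
      (fun j : {j : Fin n // blk j = i} => (⟨j.1, j.2.le.trans_lt (Nat.lt_succ_self i)⟩ :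
        {j : Fin n // blk j < i + 1}))) := by
    rintro (⟨a, ha⟩ | ⟨a, ha⟩) (⟨b, hb⟩ | ⟨b, hb⟩) hab
    · simp only [Sum.elim_inl, Subtype.mk.injEq] at hab
      subst hab
      rfl
    · simp only [Sum.elim_inl, Sum.elim_inr, Subtype.mk.injEq] at hab
      subst hab
      omega
    · simp only [Sum.elim_inl, Sum.elim_inr, Subtype.mk.injEq] at hab
      subst hab
      omega
    · simp only [Sum.elim_inr, Subtype.mk.injEq] at hab
      subst hab
      rfl
  have hsur : Function.Surjective (Sum.elim
      (fun j : {j : Fin n // blk j < i} => (⟨j.1, Nat.lt_succ_of_lt j.2⟩ : {j : Fin n // blk j < i + 1}))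
      (fun j : {j : Fin n // blk j = i} => (⟨j.1, j.2.le.trans_lt (Nat.lt_succ_self i)⟩ :
        {j : Fin n // blk j < i + 1}))) := by
    rintro ⟨a, ha⟩
    rcases Nat.lt_succ_iff_lt_or_eq.1 ha with h1 | h1
    · exact ⟨Sum.inl ⟨a, h1⟩, rfl⟩
    · exact ⟨Sum.inr ⟨a, h1⟩, rfl⟩
  rw [← Matrix.det_submatrix_equiv_self (Equiv.ofBijective _ ⟨hinj, hsur⟩)]
  have key : ((M.submatrix (Subtype.val : {j : Fin n // blk j < i + 1} → Fin n) Subtype.val).submatrix
      (Equiv.ofBijective _ ⟨hinj, hsur⟩) (Equiv.ofBijective _ ⟨hinj, hsur⟩)) =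
      Matrix.fromBlocks (M.submatrix (Subtype.val : {j : Fin n // blk j < i} → Fin n) Subtype.val) 0
        (M.submatrix (Subtype.val : {j : Fin n // blk j = i} → Fin n)
          (Subtype.val : {j : Fin n // blk j < i} → Fin n)) 1 *
      Matrix.fromBlocks 1 (Matrix.of fun (j : {j : Fin n // blk j < i}) (a : {j : Fin n // blk j = i}) =>
        x a.1 j.1) 0 1 := by
    rw [Matrix.fromBlocks_multiply]
    simp only [mul_one, Matrix.mul_zero, Matrix.mul_one, add_zero]
    have hsum : ∀ (k a : Fin n), ∑ j ∈ Finset.univ.filter (fun j => blk j < i), x a j * M k j =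
        ∑ j : {j : Fin n // blk j < i}, M k j.1 * x a j.1 := by
      intro k a
      rw [← Finset.sum_subtype (Finset.univ.filter (fun j => blk j < i)) (by simp)
        (fun j => M k j * x a j)]
      exact Finset.sum_congr rfl fun j _ => mul_comm _ _
    ext p q
    rcases p with ⟨p, hp⟩ | ⟨p, hp⟩ <;> rcases q with ⟨q, hq⟩ | ⟨q, hq⟩
    · rfl
    · have h1 := hx q hq p hp.le
      have hne : p ≠ q := by
        rintro rfl
        omega
      rw [if_neg hne, add_zero, hsum] at h1
      simpa [Matrix.mul_apply] using h1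
    · rfl
    · have h1 := hx q hq p hp.le
      rw [hsum] at h1
      simpa [Matrix.mul_apply, Matrix.one_apply] using h1
  rw [key, Matrix.det_mul, Matrix.det_fromBlocks_zero₁₂, Matrix.det_fromBlocks_zero₂₁]
  simp

/-- so the determinant is `1` if this holds for all `i`. -/
theorem det_one {n : ℕ} (M : Matrix (Fin n) (Fin n) ℚ) (blk : Fin n → ℕ)
    (h : ∀ i a, blk a = i → ∃ x : Fin n → ℚ, ∀ k, blk k ≤ i →
      M k a = (∑ j ∈ Finset.univ.filter (fun j => blk j < i), x j * M k j) + (if k = a then 1 else 0)) :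
    M.det = 1 := by
  classical
  have h1 : ∀ i, Matrix.det (M.submatrix (Subtype.val : {j : Fin n // blk j < i} → Fin n)
      Subtype.val) = 1 := by
    intro i
    induction i with
    | zero =>
      have : IsEmpty {j : Fin n // blk j < 0} := ⟨fun j => absurd j.2 (Nat.not_lt_zero _)⟩
      exact Matrix.det_isEmpty
    | succ i ih => rw [det_block M blk i (h i), ih]
  have h2 : ∀ j, blk j < (Finset.univ.sup blk) + 1 := fun j =>
    Nat.lt_succ_of_le (Finset.le_sup (Finset.mem_univ j))
  rw [← h1 (Finset.univ.sup blk + 1),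
    ← Matrix.det_submatrix_equiv_self (Equiv.subtypeUnivEquiv h2) M]
  rfl

end Pool.Agent.CDC
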