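import Pool.Agent.Lib.MP_a20de0_al.CDC.Filt

set_option autoImplicit false

/-! CDC-Ext1.  If `m0 = 0` (so `Ext^1(N,S) = 0` for all simple modules `N` killed by the `e_j`), then every quotient `≠ 0` of the local
module `A c` which is killed by the `e_j` is simple.
Proof: `L = A c ⧸ I`; `exists_quot` gives `W ≤ L`, `L ⧸ W` simple.  If `W = ⊥`, done.  Otherwise `exists_quot` for `W` gives a maximal
`V < W` (a submodule of `L`), `N' = W ⧸ V` simple and killed, so there is an injective `g : N' → S` (`SData.emb`).  By `ext_lift`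
for `N' ≅ W/V ≤ L/V` with quotient `L ⧸ W` (`SData.hi`, `m0 = 0`, `j = 1`) there is `g' : L ⧸ V → S` extending `g`.
`ker g'` is a proper submodule and `W/V` is a proper submodule, so their sum is proper (`hloc` pulled back to `A c`); `W/V` is maximal, so
`ker g' ≤ W/V`, and `g` is injective, so `ker g' = ⊥`: `L ⧸ V` embeds in the semisimple module `S`, so it is semisimple
(`IsSemisimpleModule`), so `W/V ≠ ⊥` has a complement, a proper submodule: contradiction to `hloc`. -/

namespace Pool.Agent.CDC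
open CategoryTheory

/-- if `Ext^1(M/N, S) = 0`, every map `N → S` extends to `M` (long exact sequence, or `Ext.covariant`/`contravariant` sequences; `T_zero` forms) -/
theorem ext_lift {A : Type} [Ring A] {S : Type} [AddCommGroup S] [Module A S]
    {M : Type} [AddCommGroup M] [Module A M] (N : Submodule A M)
    (h : T A S (M ⧸ N) 1) (g : N →ₗ[A] S) : ∃ g' : M →ₗ[A] S, ∀ x : N, g' x = g x := by
  let C := ModuleCat.shortComplexOfCompEqZero N.subtype N.mkQ (by
    ext x
    simp)
  have hC : C.ShortExact := by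
    refine ModuleCat.shortComplex_shortExact C ?_ ?_ ?_
    · intro x
      change N.mkQ x = 0 ↔ x ∈ Set.range N.subtype
      simp
    · exact N.injective_subtype
    · exact N.mkQ_surjective
  obtain ⟨x₂, hx₂⟩ := Abelian.Ext.contravariant_sequence_exact₁ hC (ModuleCat.of A S) (n₀ := 0) (n₁ := 1)
    (Abelian.Ext.mk₀ (ModuleCat.ofHom g)) rfl (h _)
  obtain ⟨g', rfl⟩ := (Abelian.Ext.mk₀_bijective _ _).2 x₂
  rw [Abelian.Ext.mk₀_comp_mk₀] at hx₂
  have h1 := (Abelian.Ext.mk₀_bijective _ _).1 hx₂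
  refine ⟨g'.hom, fun x => ?_⟩
  have h2 := congrArg (fun t => t.hom x) h1
  exact h2

theorem top_unique (R : Type) [CommRing R] [IsArtinianRing R] {A : Type} [Ring A] [Algebra R A]
    [Module.Finite R A] {ι : Type} {e : ι → A} {S : Type} [AddCommGroup S] [Module A S]
    (hS : SData e S 0) {c : A}
    (hloc : ∀ W1 W2 : Submodule A (Le c), W1 ≠ ⊤ → W2 ≠ ⊤ → W1 ⊔ W2 ≠ ⊤)
    (I : Submodule A (Le c)) (hI : I ≠ ⊤) (hk : Kill e ((Le c) ⧸ I)) :
    IsSimpleModule A ((Le c) ⧸ I) := by
  have hfin1 : Module.Finite R (Le c) := by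
    have h1 : IsNoetherian R A := isNoetherian_of_isNoetherianRing_of_finite R A
    have h2 : Module.Finite R (Submodule.restrictScalars R (Submodule.span A ({c} : Set A))) := inferInstance
    exact h2
  have hfin2 : Module.Finite R ((Le c) ⧸ I) :=
    Module.Finite.of_surjective (I.mkQ.restrictScalars R) I.mkQ_surjective
  have hnt : Nontrivial ((Le c) ⧸ I) := Submodule.Quotient.nontrivial_iff.2 hI
  obtain ⟨N, hN⟩ := exists_sub R (A := A) ((Le c) ⧸ I)
  obtain ⟨g, hg⟩ := hS.emb N hN (Kill_sub hk N)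
  have hfin3 : Module.Finite R (((Le c) ⧸ I) ⧸ N) :=
    Module.Finite.of_surjective (N.mkQ.restrictScalars R) N.mkQ_surjective
  have hT : T A S (((Le c) ⧸ I) ⧸ N) 1 := T_filt R hS _ (Kill_quot hk N) 1 Nat.zero_lt_one
  obtain ⟨g', hg'⟩ := ext_lift N hT g
  have hsemi := hS.semi
  obtain ⟨C', hC'⟩ := exists_isCompl (LinearMap.range g)
  have hsup : N ⊔ C'.comap g' = ⊤ := by
    rw [eq_top_iff]
    intro x _
    have h1 : g' x ∈ LinearMap.range g ⊔ C' := by
      rw [hC'.sup_eq_top]
      exact Submodule.mem_top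
    obtain ⟨_, ⟨n, rfl⟩, c', hc', hsum⟩ := Submodule.mem_sup.1 h1
    refine Submodule.mem_sup.2 ⟨n, n.2, x - n, ?_, by abel⟩
    rw [Submodule.mem_comap, map_sub, hg', ← hsum]
    simpa using hc'
  have hCne : C'.comap g' ≠ ⊤ := by
    intro h1
    apply hg
    ext n
    have h2 : (n : (Le c) ⧸ I) ∈ C'.comap g' := by
      rw [h1]
      exact Submodule.mem_top
    rw [Submodule.mem_comap, hg'] at h2
    have h3 : g n ∈ LinearMap.range g ⊓ C' := ⟨⟨n, rfl⟩, h2⟩
    rw [hC'.inf_eq_bot, Submodule.mem_bot] at h3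
    rw [h3]
    rfl
  have hNtop : N = ⊤ := by
    by_contra hNne
    have hpull : ∀ W : Submodule A ((Le c) ⧸ I), W ≠ ⊤ → W.comap I.mkQ ≠ ⊤ := by
      intro W hW h1
      apply hW
      rw [eq_top_iff]
      intro x _
      obtain ⟨y, rfl⟩ := I.mkQ_surjective x
      have h2 : y ∈ W.comap I.mkQ := by
        rw [h1]
        exact Submodule.mem_top
      exact h2
    refine hloc _ _ (hpull N hNne) (hpull _ hCne) ?_
    rw [eq_top_iff]
    intro y _
    have h1 : I.mkQ y ∈ N ⊔ C'.comap g' := by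
      rw [hsup]
      exact Submodule.mem_top
    obtain ⟨a, ha, b, hb, hab⟩ := Submodule.mem_sup.1 h1
    obtain ⟨a', rfl⟩ := I.mkQ_surjective a
    refine Submodule.mem_sup.2 ⟨a', ha, y - a', ?_, by abel⟩
    rw [Submodule.mem_comap, map_sub, ← hab]
    have h2 : I.mkQ a' + b - I.mkQ a' = b := by abel
    rw [h2]
    exact hb
  rw [hNtop] at hN
  exact IsSimpleModule.congr (Submodule.topEquiv (R := A) (M := (Le c) ⧸ I)).symm

end Pool.Agent.CDC
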