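import Pool.Agent.Lib.MP_a20de0_al.CDC.Claim
import Pool.Agent.Lib.MP_a20de0_al.CDC.Ext1

set_option autoImplicit false

/-! CDC-End.  The END paragraph of the paper, for one new idempotent `c`.
`Chain e s (A c)`.  `s = 0`: `A c` is killed by the `e_j`, put `I = ⊥` (`Q_of_subsingleton`); `T_filt_ne` and projectivity of `A c` (`T_proj`,
`proj_Le`) give `m0 = 0`.  `s = s'+1`: `u : X → A c`, `K' = ker u`, `I = range u`, `L = A c ⧸ I`.
`chain_claim` for `K'`: left alternative `¬ T K' j`, `m0 ≤ j` gives `¬ T I (j+1)` (`T_sub`, `T_XM`) and, with `T L (j+2)` (`T_filt`),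
`¬ T (A c) (j+1)` (`T_sub` for `I`), impossible (`T_proj`).  So `T I j` for all `j` and `Q R e I`.  `L` is nontrivial: otherwise `I = ⊤` and
`T (A c) 0`, but there is `g ≠ 0` (`hg`, `T_zero_iff`).  If `m0 = j+1`: `T_quot` for `I ≤ A c` with `T I j` and `T (A c) (j+1)` gives `T L m0`,
contradiction to `T_filt_ne`.  So `m0 = 0`, and `top_unique` applies. -/

namespace Pool.Agent.CDC
open CategoryTheory

private theorem End_fin (R : Type) [CommRing R] [IsArtinianRing R] {A : Type} [Ring A] [Algebra R A]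
    {M : Type} [AddCommGroup M] [Module R M] [Module A M] [IsScalarTower R A M] [Module.Finite R M]
    (N : Submodule A M) : Module.Finite R N := by
  have h1 : IsNoetherian R M := isNoetherian_of_isNoetherianRing_of_finite R M
  have h2 : Module.Finite R (N.restrictScalars R) := inferInstance
  exact h2

private theorem End_kill {A : Type} [Ring A] {ι : Type} {e : ι → A} {M : Type} [AddCommGroup M] [Module A M]
    (N : Submodule A M) (h : ∀ j, ∀ x : M, e j • x ∈ N) : Kill e (M ⧸ N) := by
  intro j x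
  induction x using Submodule.Quotient.induction_on with
  | _ x =>
    rw [← Submodule.Quotient.mk_smul]
    exact (Submodule.Quotient.mk_eq_zero N).2 (h j x)

theorem local_relation (R : Type) [CommRing R] [IsArtinianRing R] {A : Type} [Ring A] [Algebra R A]
    [Module.Finite R A] {ι : Type} [Fintype ι] {e : ι → A} {S : Type} [AddCommGroup S] [Module A S]
    (he : ∀ i, IsIdempotentElem (e i)) {m0 : ℕ} (hS : SData e S m0) {c : A} (hc : IsIdempotentElem c)
    (hg : ∃ g : Le c →ₗ[A] S, g ≠ 0)
    (hloc : ∀ W1 W2 : Submodule A (Le c), W1 ≠ ⊤ → W2 ≠ ⊤ → W1 ⊔ W2 ≠ ⊤)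
    (hch : ∃ s, Chain e s (Le c)) :
    m0 = 0 ∧ ∃ I : Submodule A (Le c), IsSimpleModule A ((Le c) ⧸ I) ∧ Kill e ((Le c) ⧸ I) ∧ Q R e I := by
  obtain ⟨g, hg0⟩ := hg
  have hfin : ∀ a : A, Module.Finite R (Le a) := fun a => End_fin R (Submodule.span A ({a} : Set A))
  have hpc : Module.Projective A (Le c) := proj_Le hc
  have := hfin c
  -- reduction: a submodule `I` with `T I j` for all `j`, killed quotient, and `Q R e I`
  suffices hmain : ∃ I : Submodule A (Le c), (∀ j, T A S I j) ∧ Kill e ((Le c) ⧸ I) ∧ Q R e I by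
    obtain ⟨I, hT, hk, hQ⟩ := hmain
    have hI : I ≠ ⊤ := by
      intro hI
      apply hg0
      have h0 : g.comp I.subtype = 0 := T_zero_iff.1 (hT 0) _
      refine LinearMap.ext (fun x => ?_)
      have hx : x ∈ I := by rw [hI]; exact Submodule.mem_top
      exact LinearMap.congr_fun h0 ⟨x, hx⟩
    have hnt : Nontrivial ((Le c) ⧸ I) := Submodule.Quotient.nontrivial_iff.2 hI
    have hm0 : m0 = 0 := by
      rcases m0 with _ | j
      · rfl
      · exact absurd (T_quot I j (hT j) (T_proj (j + 1) (by omega)))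
          (T_filt_ne R hS ((Le c) ⧸ I) hk)
    subst hm0
    exact ⟨rfl, I, top_unique R hS hloc I hI hk, hk, hQ⟩
  obtain ⟨s, hs⟩ := hch
  rcases s with _ | s
  · refine ⟨⊥, fun j => T_of_subsingleton j, Kill_quot hs ⊥, Q_of_subsingleton R⟩
  · obtain ⟨r, σ, u, hcok, hs'⟩ := hs
    have : ∀ t, Module.Finite R (Le (e (σ t))) := fun t => hfin _
    have : Module.Finite R (XM e σ) := Module.Finite.pi
    have : Module.Finite R (LinearMap.ker u) := End_fin R _
    have hk : Kill e ((Le c) ⧸ (LinearMap.range u)) := End_kill _ hcok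
    have hXT : ∀ j, T A S (XM e σ) j := fun j => T_XM he hS.kill σ j
    have hcl := chain_claim R he hS s (LinearMap.ker u) hs'
    rcases hcl with ⟨j, hj, hnT⟩ | ⟨hT, hQ⟩
    · exfalso
      apply hnT
      refine T_sub (LinearMap.ker u) j (hXT j) ?_
      refine (T_congr u.quotKerEquivRange (j + 1)).2 ?_
      exact T_sub (LinearMap.range u) (j + 1) (T_proj (j + 1) (by omega))
        (T_filt R hS ((Le c) ⧸ (LinearMap.range u)) hk (j + 1 + 1) (by omega))
    · refine ⟨LinearMap.range u, fun j => ?_, hk, ?_⟩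
      · rcases j with _ | j
        · refine T_zero_iff.2 (fun g' => ?_)
          have h0 : g'.comp u.rangeRestrict = 0 := T_zero_iff.1 (hXT 0) _
          refine LinearMap.ext (fun x => ?_)
          obtain ⟨y, hy⟩ := u.surjective_rangeRestrict x
          rw [← hy]
          exact LinearMap.congr_fun h0 y
        · exact (T_congr u.quotKerEquivRange (j + 1)).1
            (T_quot (LinearMap.ker u) j (hT j) (hXT (j + 1)))
      · exact Q_congr R u.quotKerEquivRange (Q_quot R (LinearMap.ker u) (Q_XM R σ) hQ)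

end Pool.Agent.CDC
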