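import Pool.Agent.Lib.MP_a20de0_al.CDC.Defs

set_option autoImplicit false

/-! CDC-ExtT.  Properties of `T A S M j` (`Ext^j(M,S)=0`).
Use `CategoryTheory.Abelian.Ext` and its contravariant long exact sequence
(`Ext.contravariant_sequence_exact₁/₂/₃`, file Mathlib/Algebra/Homology/DerivedCategory/Ext/ExactSequences.lean) for the
short exact sequence `0 → N → M → M ⧸ N → 0` in `ModuleCat A` (`ModuleCat.of A N`, `N.subtype`, `N.mkQ`). -/

namespace Pool.Agent.CDC
open CategoryTheory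

variable {A : Type} [Ring A] {S : Type} [AddCommGroup S] [Module A S]
  {M M' : Type} [AddCommGroup M] [Module A M] [AddCommGroup M'] [Module A M']

private noncomputable abbrev ExtT_S (N : Submodule A M) : ShortComplex (ModuleCat.{0} A) :=
  ShortComplex.mk (ModuleCat.ofHom N.subtype) (ModuleCat.ofHom N.mkQ) (by
    ext x
    simp)

private theorem ExtT_exact (N : Submodule A M) : (ExtT_S N).ShortExact := by
  refine ModuleCat.shortComplex_shortExact _ ?_ ?_ ?_
  · intro x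
    change N.mkQ x = 0 ↔ x ∈ Set.range N.subtype
    rw [Submodule.mkQ_apply, Submodule.Quotient.mk_eq_zero]
    exact ⟨fun h => ⟨⟨x, h⟩, rfl⟩, by rintro ⟨y, rfl⟩; exact y.2⟩
  · exact N.injective_subtype
  · exact N.mkQ_surjective

private theorem ExtT_congr (f : M ≃ₗ[A] M') (j : ℕ) (h : T A S M j) : T A S M' j := by
  intro x
  have h1 : (Abelian.Ext.mk₀ (ModuleCat.ofHom f.toLinearMap)).comp x (zero_add j) = 0 := h _
  have h2 : (Abelian.Ext.mk₀ (ModuleCat.ofHom f.symm.toLinearMap)).comp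
      ((Abelian.Ext.mk₀ (ModuleCat.ofHom f.toLinearMap)).comp x (zero_add j)) (zero_add j) = x := by
    rw [Abelian.Ext.mk₀_comp_mk₀_assoc]
    have h3 : ModuleCat.ofHom f.symm.toLinearMap ≫ ModuleCat.ofHom f.toLinearMap = 𝟙 (ModuleCat.of A M') := by
      ext y
      simp
    rw [h3, Abelian.Ext.mk₀_id_comp]
  rw [← h2, h1, Abelian.Ext.comp_zero]

theorem T_congr (f : M ≃ₗ[A] M') (j : ℕ) : T A S M j ↔ T A S M' j :=
  ⟨ExtT_congr f j, ExtT_congr f.symm j⟩

theorem T_proj [Module.Projective A M] (j : ℕ) (hj : 1 ≤ j) : T A S M j := by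
  obtain ⟨n, rfl⟩ : ∃ n, j = n + 1 := ⟨j - 1, by omega⟩
  have : Projective (ModuleCat.of A M) := (IsProjective.iff_projective M).1 inferInstance
  exact fun x => Abelian.Ext.eq_zero_of_projective x

theorem T_zero_iff : T A S M 0 ↔ ∀ g : M →ₗ[A] S, g = 0 := by
  constructor
  · intro h g
    have h1 := h (Abelian.Ext.mk₀ (ModuleCat.ofHom g))
    rw [Abelian.Ext.mk₀_eq_zero_iff] at h1
    have h2 := congrArg ModuleCat.Hom.hom h1
    exact h2
  · intro h x
    obtain ⟨g, rfl⟩ := Abelian.Ext.mk₀_bijective _ _ |>.2 x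
    rw [Abelian.Ext.mk₀_eq_zero_iff]
    ext1
    exact h _

/-- `Ext^j(M/N) → Ext^j(M) → Ext^j(N)` -/
theorem T_mid (N : Submodule A M) (j : ℕ) (h1 : T A S N j) (h2 : T A S (M ⧸ N) j) : T A S M j := by
  intro x
  obtain ⟨y, rfl⟩ := Abelian.Ext.contravariant_sequence_exact₂ (ExtT_exact N) (ModuleCat.of A S) x (h1 _)
  rw [h2 y, Abelian.Ext.comp_zero]

/-- `Ext^j(M) → Ext^j(N) → Ext^(j+1)(M/N)` -/
theorem T_sub (N : Submodule A M) (j : ℕ) (h1 : T A S M j) (h2 : T A S (M ⧸ N) (j + 1)) : T A S N j := by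
  intro x
  obtain ⟨y, rfl⟩ := Abelian.Ext.contravariant_sequence_exact₁ (ExtT_exact N) (ModuleCat.of A S) x (add_comm 1 j) (h2 _)
  rw [h1 y, Abelian.Ext.comp_zero]

/-- `Ext^j(N) → Ext^(j+1)(M/N) → Ext^(j+1)(M)` -/
theorem T_quot (N : Submodule A M) (j : ℕ) (h1 : T A S N j) (h2 : T A S M (j + 1)) :
    T A S (M ⧸ N) (j + 1) := by
  intro x
  obtain ⟨y, rfl⟩ := Abelian.Ext.contravariant_sequence_exact₃ (ExtT_exact N) (ModuleCat.of A S) x (h2 _) (add_comm 1 j)
  rw [h1 y, Abelian.Ext.comp_zero]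

theorem T_of_subsingleton [Subsingleton M] (j : ℕ) : T A S M j := by
  intro x
  have h : 𝟙 (ModuleCat.of A M) = 0 := by
    ext y
    exact Subsingleton.elim (α := M) _ _
  rw [← x.mk₀_id_comp, h, Abelian.Ext.mk₀_zero, Abelian.Ext.zero_comp]

theorem T_gl (h : FinGl A) : ∃ N : ℕ, ∀ (M : Type) [AddCommGroup M] [Module A M] (j : ℕ),
    N ≤ j → T A S M j := by
  obtain ⟨m, hm⟩ := h
  refine ⟨m, fun M _ _ j hj x => ?_⟩
  have := hm (ModuleCat.of A M)
  exact x.eq_zero_of_hasProjectiveDimensionLT m hj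

end Pool.Agent.CDC
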