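import Pool.Agent.Lib.MP_a20de0_al.CDC.ExtT

set_option autoImplicit false

/-! CDC-Filt.  Modules `L` of finite length with all `e_j L = 0` (`Kill e L`).
`exists_sub`: `L` is Artinian (finite over the Artinian ring `R`), so has a simple submodule `N` (`IsAtomic`); it is killed too.
`exists_quot`: `L` is Noetherian, so has a maximal submodule `W` (`IsCoatomic`), `L ⧸ W` is simple and killed.
`T_filt`: induction on the length (well-founded induction on submodules, or on `Module.length R L`): for `L` nontrivial take
`N` simple in `L`, `T_mid`.  `T_filt_ne`: `N` simple in `L`; if `T A S L m0` then `T A S N m0` by `T_sub`, as `T A S (L ⧸ N) (m0+1)`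
by `T_filt`; contradiction to `SData.lo`. -/

namespace Pool.Agent.CDC
open CategoryTheory

variable (R : Type) [CommRing R] [IsArtinianRing R] {A : Type} [Ring A] [Algebra R A]
  {ι : Type} {e : ι → A} {S : Type} [AddCommGroup S] [Module A S]

theorem Kill_sub {L : Type} [AddCommGroup L] [Module A L] (hL : Kill e L) (N : Submodule A L) : Kill e N := by
  intro j x
  apply Subtype.ext
  exact hL j x

theorem Kill_quot {L : Type} [AddCommGroup L] [Module A L] (hL : Kill e L) (N : Submodule A L) :
    Kill e (L ⧸ N) := by
  intro j x
  obtain ⟨y, rfl⟩ := N.mkQ_surjective x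
  rw [← map_smul, hL j y, map_zero]

private theorem exists_sub' (L : Type) [AddCommGroup L] [Module A L] [IsArtinian A L] [Nontrivial L] :
    ∃ N : Submodule A L, IsSimpleModule A N := by
  obtain ⟨N, hN⟩ := IsAtomic.exists_atom (Submodule A L)
  exact ⟨N, isSimpleModule_iff_isAtom.2 hN⟩

theorem exists_sub (L : Type) [AddCommGroup L] [Module R L] [Module A L]
    [IsScalarTower R A L] [Module.Finite R L] [Nontrivial L] :
    ∃ N : Submodule A L, IsSimpleModule A N := by
  have : IsArtinian A L := isArtinian_of_tower R inferInstance
  exact exists_sub' L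

theorem exists_quot (L : Type) [AddCommGroup L] [Module R L] [Module A L]
    [IsScalarTower R A L] [Module.Finite R L] [Nontrivial L] :
    ∃ W : Submodule A L, IsSimpleModule A (L ⧸ W) := by
  have : IsNoetherian A L := isNoetherian_of_tower R inferInstance
  obtain ⟨W, hW⟩ := IsCoatomic.exists_coatom (Submodule A L)
  exact ⟨W, isSimpleModule_iff_isCoatom.2 hW⟩

private theorem T_filt' {m0 : ℕ} (hS : SData e S m0) (L : Type) [AddCommGroup L] [Module A L]
    [IsArtinian A L] [IsNoetherian A L] (hL : Kill e L) (j : ℕ) (hj : m0 < j) :
    T A S L j := by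
  have key : ∀ W : Submodule A L, T A S (L ⧸ W) j := by
    intro W
    induction W using WellFoundedGT.induction with
    | ind W ih =>
      by_cases hW : W = ⊤
      · have : Subsingleton (L ⧸ W) := Submodule.Quotient.subsingleton_iff.2 hW
        exact T_of_subsingleton j
      · have : Nontrivial (L ⧸ W) := Submodule.Quotient.nontrivial_iff.2 hW
        obtain ⟨N, hN⟩ := exists_sub' (A := A) (L ⧸ W)
        obtain ⟨W', hW'⟩ : ∃ W' : Submodule A L, W' = N.comap W.mkQ := ⟨_, rfl⟩
        have hmap : W'.map W.mkQ = N := by
          rw [hW']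
          exact Submodule.map_comap_eq_of_surjective W.mkQ_surjective N
        have hle : W ≤ W' := by
          intro x hx
          rw [hW', Submodule.mem_comap, Submodule.mkQ_apply, (Submodule.Quotient.mk_eq_zero W).2 hx]
          exact N.zero_mem
        have hlt : W < W' := by
          refine lt_of_le_of_ne hle fun h => ?_
          have h1 : N = ⊥ := by
            rw [← hmap, ← h, Submodule.mkQ_map_self]
          have h2 := IsSimpleModule.nontrivial A N
          rw [h1] at h2
          exact not_subsingleton _ (inferInstance : Subsingleton (⊥ : Submodule A (L ⧸ W)))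
        have hq : T A S ((L ⧸ W) ⧸ N) j := by
          subst hmap
          exact (T_congr (Submodule.quotientQuotientEquivQuotient W W' hle) j).2 (ih W' hlt)
        exact T_mid N j (hS.hi N hN (Kill_sub (Kill_quot hL W) N) j hj) hq
  exact (T_congr (Submodule.quotEquivOfEqBot (⊥ : Submodule A L) rfl) j).1 (key ⊥)

theorem T_filt {m0 : ℕ} (hS : SData e S m0) (L : Type) [AddCommGroup L] [Module R L] [Module A L]
    [IsScalarTower R A L] [Module.Finite R L] (hL : Kill e L) (j : ℕ) (hj : m0 < j) :
    T A S L j := by
  have : IsNoetherian A L := isNoetherian_of_tower R inferInstance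
  have : IsArtinian A L := isArtinian_of_tower R inferInstance
  exact T_filt' hS L hL j hj

theorem T_filt_ne {m0 : ℕ} (hS : SData e S m0) (L : Type) [AddCommGroup L] [Module R L] [Module A L]
    [IsScalarTower R A L] [Module.Finite R L] [Nontrivial L] (hL : Kill e L) :
    ¬ T A S L m0 := by
  have : IsNoetherian A L := isNoetherian_of_tower R inferInstance
  have : IsArtinian A L := isArtinian_of_tower R inferInstance
  obtain ⟨N, hN⟩ := exists_sub' (A := A) L
  intro h
  exact hS.lo N hN (Kill_sub hL N) (T_sub N m0 h (T_filt' hS (L ⧸ N) (Kill_quot hL N) (m0 + 1) (Nat.lt_succ_self m0)))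

end Pool.Agent.CDC
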