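import Pool.Agent.Lib.MP_a20de0_al.CDC.UniqMax

set_option autoImplicit false

/-! CDC-PrimLoc.  Primitive idempotents of an Artinian ring are local: for `x ∈ e A e`, Fitting's lemma for right multiplication by `x`
on the module `A e` (finite length) — or: the chain `x^n A e` and `A x^n` stabilise — gives an idempotent `g ∈ e A e` with `x` invertible
on `g` and nilpotent on `e - g`; `g = 0` or `g = e`.
`noniso_rad`: `e, e'` local and not isomorphic: for all `a, b ∈ A`, `e a e' b e` is not a unit of `e A e` (otherwise `e ≅ e'`), so it is in `J`;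
then `e a e' ∈ J`: use `x ∈ J ↔ 1 + y x` left invertible for all `y`, or: `A e a e' ` is a proper submodule of the local module `A e'`, or if `e a e' ∉ J`
there is a simple module `N` with `e a e' N ≠ 0`, `y` with `e a e' y ≠ 0`; `A (e a e' y) = N ∋ e' y`, so `e' b e a e' y = e' y` for some `b`, so
`e' b e a e'` is not nilpotent, so a unit of `e' A e'` (`Loc`): `e'` is isomorphic to a direct summand of `e`, so `e ≅ e'`. -/

namespace Pool.Agent.CDC

private theorem pl_pow {A : Type} [Ring A] (x : A) (n : ℕ) :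
    (LinearMap.toSpanSingleton A A x : Module.End A A) ^ n = LinearMap.toSpanSingleton A A (x ^ n) := by
  induction n with
  | zero =>
    ext
    simp
  | succ n ih =>
    ext
    rw [pow_succ', ih, Module.End.mul_apply, LinearMap.toSpanSingleton_apply, LinearMap.toSpanSingleton_apply,
      LinearMap.toSpanSingleton_apply, smul_eq_mul, smul_eq_mul, smul_eq_mul, one_mul, one_mul, pow_succ]

theorem prim_loc {A : Type} [Ring A] [IsArtinianRing A] {e : A} (he : IsIdempotentElem e) (h0 : e ≠ 0)
    (hp : ∀ g : A, IsIdempotentElem g → e * g = g → g * e = g → g = 0 ∨ g = e) : Loc e := by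
  refine ⟨h0, fun x hx => ?_⟩
  have hex : e * x = x := by
    rw [← hx, ← mul_assoc, ← mul_assoc, he.eq]
  have hxe : x * e = x := by
    rw [← hx, mul_assoc, he.eq]
  have h1 := LinearMap.eventually_isCompl_ker_pow_range_pow (LinearMap.toSpanSingleton A A x : Module.End A A)
  obtain ⟨N, hN⟩ := Filter.eventually_atTop.1 h1
  obtain ⟨n, hn1, hnN⟩ : ∃ n : ℕ, 1 ≤ n ∧ N ≤ n := ⟨N + 1, by omega, by omega⟩
  have h2 := hN n hnN
  rw [pl_pow] at h2
  have hxn : x ^ n * e = x ^ n := by
    obtain ⟨m, rfl⟩ : ∃ m, n = m + 1 := ⟨n - 1, by omega⟩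
    rw [pow_succ, mul_assoc, hxe]
  have hker : ∀ y : A, y ∈ LinearMap.ker (LinearMap.toSpanSingleton A A (x ^ n)) ↔ y * x ^ n = 0 := fun y => by
    rw [LinearMap.mem_ker, LinearMap.toSpanSingleton_apply, smul_eq_mul]
  have hran : ∀ y : A, y ∈ LinearMap.range (LinearMap.toSpanSingleton A A (x ^ n)) ↔ ∃ a, a * x ^ n = y := fun y => by
    rw [LinearMap.mem_range]
    exact ⟨fun ⟨a, ha⟩ => ⟨a, ha⟩, fun ⟨a, ha⟩ => ⟨a, ha⟩⟩
  -- uniqueness of the decomposition
  have huniq : ∀ p q p' q' : A, p * x ^ n = 0 → p' * x ^ n = 0 → (∃ a, a * x ^ n = q) → (∃ a, a * x ^ n = q') →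
      p + q = p' + q' → p = p' ∧ q = q' := by
    intro p q p' q' hp hp' hq hq' hh
    have h3 : p - p' = q' - q := by
      rw [sub_eq_sub_iff_add_eq_add, hh, add_comm]
    have h4 : p - p' ∈ LinearMap.ker (LinearMap.toSpanSingleton A A (x ^ n)) := by
      rw [hker, sub_mul, hp, hp', sub_zero]
    have h5 : p - p' ∈ LinearMap.range (LinearMap.toSpanSingleton A A (x ^ n)) := by
      rw [h3]
      exact Submodule.sub_mem _ ((hran _).2 hq') ((hran _).2 hq)
    have h6 : p - p' = 0 := by
      have := Submodule.disjoint_def.1 h2.disjoint _ h4 h5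
      exact this
    exact ⟨sub_eq_zero.1 h6, (sub_eq_zero.1 (h3 ▸ h6)).symm⟩
  obtain ⟨k, hk, g, hg, hkg⟩ : ∃ k ∈ LinearMap.ker (LinearMap.toSpanSingleton A A (x ^ n)),
      ∃ g ∈ LinearMap.range (LinearMap.toSpanSingleton A A (x ^ n)), k + g = e := by
    have h3 : e ∈ LinearMap.ker (LinearMap.toSpanSingleton A A (x ^ n)) ⊔
        LinearMap.range (LinearMap.toSpanSingleton A A (x ^ n)) := by
      rw [h2.sup_eq_top]
      trivial
    exact Submodule.mem_sup.1 h3
  rw [hker] at hk
  rw [hran] at hg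
  obtain ⟨a, ha⟩ := hg
  have hge : g * e = g := by rw [← ha, mul_assoc, hxn]
  have hke : k * e = k := by
    have h3 : (k + g) * e = k + g := by rw [hkg, he.eq]
    rw [add_mul, hge] at h3
    exact add_right_cancel h3
  have heg : e * k = k ∧ e * g = g := by
    refine huniq (e * k) (e * g) k g (by rw [mul_assoc, hk, mul_zero]) hk ⟨e * a, by rw [mul_assoc, ha]⟩ ⟨a, ha⟩ ?_
    rw [← mul_add, hkg, he.eq]
  have hgg : g * k = 0 ∧ g * g = g := by
    refine huniq (g * k) (g * g) 0 g (by rw [mul_assoc, hk, mul_zero]) (zero_mul _) ⟨g * a, by rw [mul_assoc, ha]⟩ ⟨a, ha⟩ ?_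
    rw [← mul_add, hkg, hge, zero_add]
  rcases hp g hgg.2 heg.2 hge with h3 | h3
  · right
    refine ⟨n, ?_⟩
    have h4 : k = e := by rw [← hkg, h3, add_zero]
    obtain ⟨m, hm⟩ : ∃ m, n = m + 1 := ⟨n - 1, by omega⟩
    have h5 : e * x ^ n = x ^ n := by rw [hm, pow_succ', ← mul_assoc, hex]
    rw [← h5, ← h4, hk]
  · left
    obtain ⟨m, hm⟩ : ∃ m, n = m + 1 := ⟨n - 1, by omega⟩
    have hyx : e * a * x ^ m * e * x = e := by
      rw [mul_assoc _ e x, hex, mul_assoc _ (x ^ m) x, ← pow_succ, ← hm, mul_assoc, ha, h3, he.eq]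
    refine ⟨e * a * x ^ m * e, ?_, ?_, hyx⟩
    · simp only [← mul_assoc, he.eq]
      rw [mul_assoc _ e e, he.eq]
    · have h4 : IsIdempotentElem (x * (e * a * x ^ m * e)) := by
        change x * (e * a * x ^ m * e) * (x * (e * a * x ^ m * e)) = _
        rw [mul_assoc x, ← mul_assoc (e * a * x ^ m * e) x, hyx]
        simp only [← mul_assoc, hxe, he.eq]
      rcases hp _ h4 (by rw [← mul_assoc, hex]) (by rw [mul_assoc, mul_assoc _ e e, he.eq]) with h5 | h5
      · exfalso
        apply h0
        calc e = e * e := he.eq.symm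
          _ = (e * a * x ^ m * e * x) * (e * a * x ^ m * e * x) := by rw [hyx]
          _ = e * a * x ^ m * e * (x * (e * a * x ^ m * e)) * x := by simp only [mul_assoc]
          _ = 0 := by rw [h5, mul_zero, zero_mul]
      · exact h5

theorem noniso_rad {A : Type} [Ring A] [IsArtinianRing A] {e e' : A} (he : IsIdempotentElem e)
    (he' : IsIdempotentElem e') (hl : Loc e) (hl' : Loc e')
    (hn : ¬ ∃ a b : A, e * a * e' = a ∧ e' * b * e = b ∧ a * b = e ∧ b * a = e') (a : A) :
    e * a * e' ∈ (⊥ : Ideal A).jacobson := by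
  by_contra hz
  obtain ⟨m, hm1, hm2⟩ : ∃ m : Ideal A, m.IsMaximal ∧ e * a * e' ∉ m := by
    by_contra hc
    push Not at hc
    apply hz
    rw [Ideal.jacobson, Ideal.mem_sInf]
    intro I hI
    exact hc I hI.2
  have he'm : e' ∉ m := fun h => hm2 (m.mul_mem_left _ h)
  obtain ⟨b, w, hw, hbw⟩ : ∃ b, ∃ w ∈ m, b * (e * a * e') + w = 1 := by
    have h1 := hm1.exists_inv hm2
    obtain ⟨y, i, hi, hyi⟩ := h1
    exact ⟨y, i, hi, hyi⟩
  have hu1 : e' * b * (e * a * e') * e' = e' * b * (e * a * e') := by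
    rw [mul_assoc (e' * b), mul_assoc (e * a), he'.eq]
  have hu2 : e' - e' * b * (e * a * e') ∈ m := by
    have h1 : e' - e' * b * (e * a * e') = e' * w := by
      have h2 : w = 1 - b * (e * a * e') := by rw [← hbw]; abel
      rw [h2, mul_sub, mul_one]
      simp only [mul_assoc]
    rw [h1]
    exact m.mul_mem_left _ hw
  rcases hl'.2 (e' * b * (e * a * e')) (by rw [mul_assoc e' _ e', hu1]; simp only [← mul_assoc, he'.eq]) with ⟨y, hy1, hy2, hy3⟩ | ⟨N, hN⟩
  · -- `e ≅ e'`
    have hy' : y * e' = y := by rw [← hy1, mul_assoc, he'.eq]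
    have hy'' : e' * y = y := by rw [← hy1]; simp only [← mul_assoc, he'.eq]
    have hba : (y * b * e) * (e * a * e') = e' := by
      calc (y * b * e) * (e * a * e') = y * b * (e * e) * a * e' := by simp only [mul_assoc]
        _ = y * b * e * a * e' := by rw [he.eq]
        _ = (y * e') * b * e * a * e' := by rw [hy']
        _ = y * (e' * b * (e * a * e')) := by simp only [mul_assoc]
        _ = e' := hy3
    have hid : IsIdempotentElem ((e * a * e') * (y * b * e)) := by
      change (e * a * e') * (y * b * e) * ((e * a * e') * (y * b * e)) = _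
      rw [mul_assoc (e * a * e'), ← mul_assoc (y * b * e) (e * a * e'), hba]
      congr 1
      simp only [← mul_assoc, hy'']
    have hcor : e * ((e * a * e') * (y * b * e)) * e = (e * a * e') * (y * b * e) := by
      calc e * ((e * a * e') * (y * b * e)) * e = (e * e) * a * e' * y * b * (e * e) := by simp only [mul_assoc]
        _ = (e * a * e') * (y * b * e) := by rw [he.eq]; simp only [mul_assoc]
    apply hn
    refine ⟨e * a * e', y * b * e, ?_, ?_, ?_, hba⟩
    · calc e * (e * a * e') * e' = (e * e) * a * (e' * e') := by simp only [mul_assoc]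
        _ = e * a * e' := by rw [he.eq, he'.eq]
    · calc e' * (y * b * e) * e = (e' * y) * b * (e * e) := by simp only [mul_assoc]
        _ = y * b * e := by rw [he.eq, hy'']
    · rcases hl.2 _ hcor with ⟨z, hz1, hz2, hz3⟩ | ⟨N, hN⟩
      · calc (e * a * e') * (y * b * e) = e * ((e * a * e') * (y * b * e)) := by simp only [← mul_assoc, he.eq]
          _ = z * ((e * a * e') * (y * b * e)) * ((e * a * e') * (y * b * e)) := by rw [hz3]
          _ = z * ((e * a * e') * (y * b * e)) := by rw [mul_assoc, hid.eq]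
          _ = e := hz3
      · exfalso
        have h1 : (e * a * e') * (y * b * e) = 0 := by
          rcases Nat.eq_zero_or_pos N with h | h
          · rw [h, pow_zero] at hN
            rw [← mul_one ((e * a * e') * (y * b * e)), hN, mul_zero]
          · rw [← hid.pow_eq (by omega : N ≠ 0), hN]
        apply hl'.1
        calc e' = e' * e' := he'.eq.symm
          _ = ((y * b * e) * (e * a * e')) * ((y * b * e) * (e * a * e')) := by rw [hba]
          _ = (y * b * e) * ((e * a * e') * (y * b * e)) * (e * a * e') := by simp only [mul_assoc]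
          _ = 0 := by rw [h1, mul_zero, zero_mul]
  · -- `e' - u` is left invertible
    apply he'm
    have h1 : (∑ i ∈ Finset.range N, (e' * b * (e * a * e')) ^ i) * (e' - e' * b * (e * a * e')) = e' := by
      have h2 : e' - e' * b * (e * a * e') = (1 - e' * b * (e * a * e')) * e' := by
        rw [sub_mul, one_mul, hu1]
      rw [h2, ← mul_assoc, geom_sum_mul_neg, hN, sub_zero, one_mul]
    rw [← h1]
    exact m.mul_mem_left _ hu2

end Pool.Agent.CDC
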