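import Pool.Agent.Lib.MP_a20de0_al.CDC.Local
import Pool.Agent.Lib.MP_a20de0_al.CDC.PrimLoc
import Pool.Agent.Lib.MP_a20de0_al.CDC.Det

set_option autoImplicit false

/-! CDC-Final.  The theorem.  For `i` let `f = ∑_{blk j ≤ i} e_j`, `B = f A f`, old idempotents `{blk j < i}`, new `{blk j = i}` (as elements of `B`).
`Setup` in `B`: `prim_loc`, `noniso_rad`, `Loc_corner`, `corner_rad`.  `FinGl` of the corner of `B` at the old idempotents: for `i = 0` there is no old
idempotent; otherwise `∑_{blk j < i} = ∑_{blk j ≤ i - 1}` and `FinGl_corner_corner`.  `Trans`: hypothesis `haut`.  `local_columns`, `corner_len`, `corner_rad_len`,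
divide row `k` by `d_k = la (e_k) (e_k) - lj (e_k) ≠ 0`, `det_one`. -/

namespace Pool.Agent.CDC

section

variable {R : Type} [CommRing R] [IsArtinianRing R] {A : Type} [Ring A] [Algebra R A]
    [Module.Finite R A] {n : ℕ} {e : Fin n → A} {blk : Fin n → ℕ}

private theorem sum_mul_e (hidem : ∀ i, IsIdempotentElem (e i)) (horth : ∀ i j, i ≠ j → e i * e j = 0)
    (F : Finset (Fin n)) (j : Fin n) (hj : j ∈ F) : (∑ i ∈ F, e i) * e j = e j := by
  rw [Finset.sum_mul, Finset.sum_eq_single j]
  · exact hidem j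
  · intro i _ hi; exact horth i j hi
  · intro h; exact absurd hj h

private theorem e_mul_sum (hidem : ∀ i, IsIdempotentElem (e i)) (horth : ∀ i j, i ≠ j → e i * e j = 0)
    (F : Finset (Fin n)) (j : Fin n) (hj : j ∈ F) : e j * (∑ i ∈ F, e i) = e j := by
  rw [Finset.mul_sum, Finset.sum_eq_single j]
  · exact hidem j
  · intro i _ hi; exact horth j i (Ne.symm hi)
  · intro h; exact absurd hj h

private theorem sum_idem (hidem : ∀ i, IsIdempotentElem (e i)) (horth : ∀ i j, i ≠ j → e i * e j = 0)
    (F : Finset (Fin n)) : IsIdempotentElem (∑ i ∈ F, e i) := by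
  show (∑ i ∈ F, e i) * (∑ i ∈ F, e i) = ∑ i ∈ F, e i
  rw [Finset.mul_sum]
  exact Finset.sum_congr rfl (fun j hj => sum_mul_e hidem horth F j hj)

/-- the underlying element, as an additive map -/
private def valHom {f : A} (hf : IsIdempotentElem f) : hf.Corner →+ A where
  toFun x := x.1
  map_zero' := rfl
  map_add' _ _ := rfl

private theorem val_sum {f : A} (hf : IsIdempotentElem f) {ι : Type} [Fintype ι] (g : ι → hf.Corner) :
    (∑ j, g j).1 = ∑ j, (g j).1 := map_sum (valHom hf) g Finset.univ

private theorem columns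
    (hprim : ∀ i, IsIdempotentElem (e i) ∧ e i ≠ 0 ∧
        ∀ g : A, IsIdempotentElem g → e i * g = g → g * e i = g → g = 0 ∨ g = e i)
    (horth : ∀ i j, i ≠ j → e i * e j = 0)
    (hniso : ∀ i j, i ≠ j → ¬ ∃ a b : A,
        e i * a * e j = a ∧ e j * b * e i = b ∧ a * b = e i ∧ b * a = e j)
    (hgl : ∀ i, ∀ hf : IsIdempotentElem (∑ j ∈ Finset.univ.filter (fun j => blk j ≤ i), e j),
      ∃ m : ℕ, ∀ M : ModuleCat.{0} hf.Corner, CategoryTheory.HasProjectiveDimensionLT M m)
    (i : ℕ)
    (haut : ∀ hf : IsIdempotentElem (∑ j ∈ Finset.univ.filter (fun j => blk j ≤ i), e j),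
      ∀ a b, blk a = i → blk b = i → ∃ φ : hf.Corner ≃+* hf.Corner,
        (∀ x : hf.Corner, x.1 = e a → (φ x).1 = e b) ∧
        ∀ c, blk c = i → ∃ d, blk d = i ∧ ∀ x : hf.Corner, x.1 = e c → (φ x).1 = e d)
    (a : Fin n) (ha : blk a = i) :
    (∃ x : Fin n → ℤ, ∀ k, blk k ≤ i → (la R (e k) (e a) : ℤ) =
      (∑ j ∈ Finset.univ.filter (fun j => blk j < i), x j * (la R (e k) (e j) : ℤ)) +
        (if k = a then (la R (e a) (e a) : ℤ) - lj R (e a) else 0)) ∧
    (lj R (e a) : ℤ) < la R (e a) (e a) := by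
  classical
  have hidem : ∀ i, IsIdempotentElem (e i) := fun i => (hprim i).1
  have : IsArtinianRing A := isArtinian_of_tower R inferInstance
  have hloc : ∀ i, Loc (e i) := fun i => prim_loc (hprim i).1 (hprim i).2.1 (hprim i).2.2
  have hrad : ∀ j k, j ≠ k → ∀ a : A, e j * a * e k ∈ (⊥ : Ideal A).jacobson := fun j k hjk a =>
    noniso_rad (hidem j) (hidem k) (hloc j) (hloc k) (hniso j k hjk) a
  have hf : IsIdempotentElem (∑ j ∈ Finset.univ.filter (fun j => blk j ≤ i), e j) := sum_idem hidem horth _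
  have hmem : ∀ j, blk j ≤ i → (∑ j ∈ Finset.univ.filter (fun j => blk j ≤ i), e j) * e j = e j ∧
      e j * (∑ j ∈ Finset.univ.filter (fun j => blk j ≤ i), e j) = e j := fun j hj =>
    ⟨sum_mul_e hidem horth _ j (by simpa using hj), e_mul_sum hidem horth _ j (by simpa using hj)⟩
  let eB : {j : Fin n // blk j < i} → hf.Corner := fun j => mkC hf (e j.1) (hmem j.1 j.2.le)
  let cB : {j : Fin n // blk j = i} → hf.Corner := fun j => mkC hf (e j.1) (hmem j.1 j.2.le)
  have heB : ∀ j, (eB j).1 = e j.1 := fun j => rfl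
  have hcB : ∀ j, (cB j).1 = e j.1 := fun j => rfl
  have hneq : ∀ (j : {j : Fin n // blk j < i}) (b : {j : Fin n // blk j = i}), j.1 ≠ b.1 := by
    intro j b h
    have h1 := j.2
    have h2 := b.2
    rw [h] at h1
    omega
  have hsumeB : (∑ j, eB j).1 = ∑ j ∈ Finset.univ.filter (fun j => blk j < i), e j := by
    rw [val_sum]
    exact (Finset.sum_subtype _ (fun j => by simp) e).symm
  have hsumcB : (∑ j, cB j).1 = ∑ j ∈ Finset.univ.filter (fun j => blk j = i), e j := by
    rw [val_sum]
    exact (Finset.sum_subtype _ (fun j => by simp) e).symm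
  have hs : Setup eB cB :=
    { idem := fun j => Subtype.ext (hidem j.1)
      idemc := fun j => Subtype.ext (hidem j.1)
      orth := fun j k hjk => Subtype.ext (horth j.1 k.1 (fun h => hjk (Subtype.ext h)))
      orthc := fun j k hjk => Subtype.ext (horth j.1 k.1 (fun h => hjk (Subtype.ext h)))
      orthl := fun j b => Subtype.ext (horth j.1 b.1 (hneq j b))
      orthr := fun j b => Subtype.ext (horth b.1 j.1 (hneq j b).symm)
      sum := by
        apply Subtype.ext
        show (∑ j, eB j).1 + (∑ j, cB j).1 = _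
        rw [hsumeB, hsumcB, ← Finset.sum_union]
        · show _ = ∑ j ∈ Finset.univ.filter (fun j => blk j ≤ i), e j
          refine Finset.sum_congr ?_ (fun _ _ => rfl)
          ext j
          simp only [Finset.mem_union, Finset.mem_filter, Finset.mem_univ, true_and]
          omega
        · rw [Finset.disjoint_left]
          intro j h1 h2
          simp only [Finset.mem_filter, Finset.mem_univ, true_and] at h1 h2
          omega
      loc := fun j => (Loc_corner hf (eB j)).mpr (hloc j.1)
      locc := fun j => (Loc_corner hf (cB j)).mpr (hloc j.1)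
      rad := fun j b x => corner_rad hf _ (hrad j.1 b.1 (hneq j b) x.1)
      radc := fun j b hjb x => corner_rad hf _ (hrad j.1 b.1 (fun h => hjb (Subtype.ext h)) x.1) }
  have ht : Trans cB := by
    intro b b'
    obtain ⟨φ, h1, h2⟩ := haut hf b.1 b'.1 b.2 b'.2
    refine ⟨φ, Subtype.ext (h1 (cB b) rfl), fun d => ?_⟩
    obtain ⟨d', hd', h3⟩ := h2 d.1 d.2
    exact ⟨⟨d', hd'⟩, Subtype.ext (h3 (cB d) rfl)⟩
  have hglB : FinGl hf.Corner := hgl i hf
  have hf' : IsIdempotentElem (∑ j, eB j) := by
    apply Subtype.ext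
    show (∑ j, eB j).1 * (∑ j, eB j).1 = (∑ j, eB j).1
    rw [hsumeB]
    exact sum_idem hidem horth _
  have hgl' : Nonempty {j : Fin n // blk j < i} → FinGl hf'.Corner := by
    rintro ⟨j0⟩
    have hg' : IsIdempotentElem (∑ j, eB j).1 := by
      show (∑ j, eB j).1 * (∑ j, eB j).1 = (∑ j, eB j).1
      rw [hsumeB]
      exact sum_idem hidem horth _
    refine FinGl_corner_corner hf (∑ j, eB j) hf' hg' ?_
    have h3 : (∑ j, eB j).1 = ∑ j ∈ Finset.univ.filter (fun j => blk j ≤ i - 1), e j := by
      rw [hsumeB]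
      refine Finset.sum_congr ?_ (fun _ _ => rfl)
      ext j
      simp only [Finset.mem_filter, Finset.mem_univ, true_and]
      have := j0.2
      omega
    have h4 : ∀ (y : A) (_ : y = ∑ j ∈ Finset.univ.filter (fun j => blk j ≤ i - 1), e j)
        (hy : IsIdempotentElem y), FinGl hy.Corner := by
      rintro _ rfl hy
      exact hgl (i - 1) hy
    exact h4 _ h3 hg'
  obtain ⟨x, hx1, hx2, hx3, hx4⟩ := local_columns R hs ht hglB hf' hgl' ⟨a, ha⟩
  have hla1 : ∀ j k, la R (eB j) (eB k) = la R (e j.1) (e k.1) := fun j k => corner_len R hf _ _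
  have hla2 : ∀ j k, la R (eB j) (cB k) = la R (e j.1) (e k.1) := fun j k => corner_len R hf _ _
  have hla3 : ∀ j k, la R (cB j) (eB k) = la R (e j.1) (e k.1) := fun j k => corner_len R hf _ _
  have hla4 : ∀ j k, la R (cB j) (cB k) = la R (e j.1) (e k.1) := fun j k => corner_len R hf _ _
  have hlj : lj R (cB ⟨a, ha⟩) = lj R (e a) :=
    corner_rad_len R hf _ (hs.idemc ⟨a, ha⟩) (hs.locc ⟨a, ha⟩)
  have hsum : ∀ k : Fin n,
      (∑ j ∈ Finset.univ.filter (fun j => blk j < i),
        (if h : blk j < i then x ⟨j, h⟩ else 0) * (la R (e k) (e j) : ℤ)) =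
      ∑ j : {j : Fin n // blk j < i}, x j * (la R (e k) (e j.1) : ℤ) := by
    intro k
    rw [Finset.sum_subtype (p := fun j => blk j < i) _ (fun j => by simp)]
    refine Finset.sum_congr rfl (fun j _ => ?_)
    rw [dif_pos j.2]
  refine ⟨⟨fun j => if h : blk j < i then x ⟨j, h⟩ else 0, ?_⟩, ?_⟩
  · intro k hk
    rw [hsum k]
    rcases Nat.lt_or_eq_of_le hk with h | h
    · have hka : k ≠ a := by
        intro hh
        rw [hh, ha] at h
        omega
      rw [if_neg hka, add_zero]
      have := hx1 ⟨k, h⟩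
      rw [hla2] at this
      rw [this]
      exact Finset.sum_congr rfl (fun j _ => by rw [hla1])
    · by_cases hka : k = a
      · subst hka
        rw [if_pos rfl]
        have := hx3
        rw [hla4, hlj] at this
        refine this.trans ?_
        congr 1
        exact Finset.sum_congr rfl (fun j _ => by rw [hla3])
      · rw [if_neg hka, add_zero]
        have := hx2 ⟨k, h⟩ (fun hh => hka (congrArg Subtype.val hh))
        rw [hla4] at this
        rw [this]
        exact Finset.sum_congr rfl (fun j _ => by rw [hla3])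
  · rw [hla4, hlj] at hx4
    exact hx4

end

/-- `d_k ≠ 0`, as `e_k J e_k ≠ e_k A e_k`. -/
private theorem d_pos (R : Type) [CommRing R] [IsArtinianRing R] {A : Type} [Ring A] [Algebra R A]
    [Module.Finite R A] {a : A} (ha : IsIdempotentElem a) (hl : Loc a) : lj R a < la R a a := by
  have : IsNoetherian R A := inferInstance
  have : Module.Finite R (Le a) := Module.Finite.of_injective
    ((Submodule.span A ({a} : Set A)).subtype.restrictScalars R) (fun _ _ h => Subtype.ext h)
  have : Nontrivial (Le a) := ⟨⟨⟨a, Submodule.mem_span_singleton_self a⟩, 0, fun h => hl.1 (congrArg Subtype.val h)⟩⟩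
  obtain ⟨W, hW⟩ := exists_quot R (A := A) (Le a)
  have h := len_simple_self R ha hl W hW
  have h1 : len R a (Le a) = la R a a := len_Le R a a ha
  have h2 : la R a a = len R a ((Le a) ⧸ W) + lj R a := by
    rw [← h1]
    exact h.1
  have h3 := h.2
  omega

theorem cartan_flag (R : Type) [CommRing R] [IsArtinianRing R] (A : Type) [Ring A] [Algebra R A]
    [Module.Finite R A] (n : ℕ) (e : Fin n → A) (blk : Fin n → ℕ)
    (hprim : ∀ i, IsIdempotentElem (e i) ∧ e i ≠ 0 ∧
        ∀ g : A, IsIdempotentElem g → e i * g = g → g * e i = g → g = 0 ∨ g = e i)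
    (horth : ∀ i j, i ≠ j → e i * e j = 0)
    (hniso : ∀ i j, i ≠ j → ¬ ∃ a b : A,
        e i * a * e j = a ∧ e j * b * e i = b ∧ a * b = e i ∧ b * a = e j)
    (hgl : ∀ i, ∀ hf : IsIdempotentElem (∑ j ∈ Finset.univ.filter (fun j => blk j ≤ i), e j),
      ∃ m : ℕ, ∀ M : ModuleCat.{0} hf.Corner, CategoryTheory.HasProjectiveDimensionLT M m)
    (haut : ∀ i, 1 ≤ i → ∀ hf : IsIdempotentElem (∑ j ∈ Finset.univ.filter (fun j => blk j ≤ i), e j),
      ∀ a b, blk a = i → blk b = i → ∃ φ : hf.Corner ≃+* hf.Corner,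
        (∀ x : hf.Corner, x.1 = e a → (φ x).1 = e b) ∧
        ∀ c, blk c = i → ∃ d, blk d = i ∧ ∀ x : hf.Corner, x.1 = e c → (φ x).1 = e d)
    (C : Matrix (Fin n) (Fin n) ℚ)
    (hC : ∀ i j, C i j = ((Module.length R (LinearMap.range
            ((LinearMap.mulLeft R (e i)).comp (LinearMap.mulRight R (e j))))).toNat : ℚ) /
        (((Module.length R (LinearMap.range
            ((LinearMap.mulLeft R (e i)).comp (LinearMap.mulRight R (e i))))).toNat : ℚ) -
         ((Module.length R (Submodule.map
            ((LinearMap.mulLeft R (e i)).comp (LinearMap.mulRight R (e i)))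
            ((⊥ : Ideal A).jacobson.restrictScalars R))).toNat : ℚ))) :
    C.det = (C.submatrix (Subtype.val : {j : Fin n // blk j = 0} → Fin n) Subtype.val).det := by
  classical
  have hC' : ∀ i j, C i j = (la R (e i) (e j) : ℚ) / ((la R (e i) (e i) : ℚ) - (lj R (e i) : ℚ)) := hC
  have hd : ∀ k, ((la R (e k) (e k) : ℚ) - (lj R (e k) : ℚ)) ≠ 0 := by
    intro k
    have : IsArtinianRing A := isArtinian_of_tower R inferInstance
    have h' : (lj R (e k) : ℚ) < la R (e k) (e k) := by
      exact_mod_cast d_pos R (hprim k).1 (prim_loc (hprim k).1 (hprim k).2.1 (hprim k).2.2)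
    intro h0
    linarith
  have step : ∀ i, 1 ≤ i →
      Matrix.det (C.submatrix (Subtype.val : {j : Fin n // blk j < i + 1} → Fin n) Subtype.val) =
      Matrix.det (C.submatrix (Subtype.val : {j : Fin n // blk j < i} → Fin n) Subtype.val) := by
    intro i hi
    refine det_block C blk i (fun a ha => ?_)
    obtain ⟨x, hx⟩ := (columns (R := R) hprim horth hniso hgl i (haut i hi) a ha).1
    refine ⟨fun j => (x j : ℚ), fun k hk => ?_⟩
    have h1 : (la R (e k) (e a) : ℚ) =
        (∑ j ∈ Finset.univ.filter (fun j => blk j < i), (x j : ℚ) * (la R (e k) (e j) : ℚ)) +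
          (if k = a then (la R (e a) (e a) : ℚ) - lj R (e a) else 0) := by
      have h2 := congrArg (fun z : ℤ => (z : ℚ)) (hx k hk)
      push_cast at h2
      exact h2
    rw [hC' k a, h1, add_div, Finset.sum_div]
    congr 1
    · exact Finset.sum_congr rfl (fun j _ => by rw [hC' k j, mul_div_assoc])
    · by_cases hka : k = a
      · subst hka
        rw [if_pos rfl, if_pos rfl]
        exact div_self (hd k)
      · rw [if_neg hka, if_neg hka, zero_div]
  have all : ∀ i, Matrix.det (C.submatrix (Subtype.val : {j : Fin n // blk j < i + 1} → Fin n) Subtype.val) =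
      Matrix.det (C.submatrix (Subtype.val : {j : Fin n // blk j < 1} → Fin n) Subtype.val) := by
    intro i
    induction i with
    | zero => rfl
    | succ i ih => rw [step (i + 1) (by omega), ih]
  -- the whole matrix
  have hN : ∀ j, blk j < (∑ j, blk j) + 1 := fun j =>
    Nat.lt_succ_of_le (Finset.single_le_sum (f := blk) (fun _ _ => Nat.zero_le _) (Finset.mem_univ j))
  have hfull : C.det =
      Matrix.det (C.submatrix (Subtype.val : {j : Fin n // blk j < (∑ j, blk j) + 1} → Fin n) Subtype.val) := by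
    let E : {j : Fin n // blk j < (∑ j, blk j) + 1} ≃ Fin n :=
      { toFun := Subtype.val, invFun := fun j => ⟨j, hN j⟩, left_inv := fun _ => rfl, right_inv := fun _ => rfl }
    exact (Matrix.det_submatrix_equiv_self E C).symm
  have hbase : Matrix.det (C.submatrix (Subtype.val : {j : Fin n // blk j < 1} → Fin n) Subtype.val) =
      Matrix.det (C.submatrix (Subtype.val : {j : Fin n // blk j = 0} → Fin n) Subtype.val) := by
    let E : {j : Fin n // blk j = 0} ≃ {j : Fin n // blk j < 1} :=
      Equiv.subtypeEquivRight (fun j => by omega)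
    rw [← Matrix.det_submatrix_equiv_self E]
    rfl
  rw [hfull, all, hbase]

end Pool.Agent.CDC
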