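import Pool.Agent.Lib.MP_a20de0_al.CDC.Defs

set_option autoImplicit false

/-! CDC-LenAdd.  `len R a M = length_R (a M)` for an idempotent `a` is additive.
`a (M ⧸ N) = a M / a N` and `a N = N ∩ a M` (as `a` is idempotent); use `Module.length_eq_add_of_exact` over `R`
for `0 → a N → a M → a (M ⧸ N) → 0`, all of finite length (finite modules over the Artinian ring `R`), then `toNat`. -/

namespace Pool.Agent.CDC

variable (R : Type) [CommRing R] [IsArtinianRing R] {A : Type} [Ring A] [Algebra R A]

theorem len_congr (a : A) {M M' : Type} [AddCommGroup M] [Module R M] [Module A M] [IsScalarTower R A M]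
    [AddCommGroup M'] [Module R M'] [Module A M'] [IsScalarTower R A M'] (f : M ≃ₗ[A] M') :
    len R a M = len R a M' := by
  unfold len
  have h : (LinearMap.range (Algebra.lsmul R R M a)).map (f.restrictScalars R : M →ₗ[R] M') =
      LinearMap.range (Algebra.lsmul R R M' a) := by
    ext y
    simp only [Submodule.mem_map, LinearMap.mem_range, Algebra.lsmul_coe]
    constructor
    · rintro ⟨x, ⟨z, rfl⟩, rfl⟩
      exact ⟨f z, (f.map_smul a z).symm⟩
    · rintro ⟨z, rfl⟩
      refine ⟨a • f.symm z, ⟨f.symm z, rfl⟩, ?_⟩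
      have h1 := f.map_smul a (f.symm z)
      rw [LinearEquiv.apply_symm_apply] at h1
      exact h1
  rw [← h]
  exact congrArg ENat.toNat ((f.restrictScalars R).submoduleMap _).length_eq

theorem len_add {a : A} (ha : IsIdempotentElem a) {M : Type} [AddCommGroup M] [Module R M] [Module A M]
    [IsScalarTower R A M] [Module.Finite R M] (N : Submodule A M) :
    len R a M = len R a N + len R a (M ⧸ N) := by
  unfold len
  let f : LinearMap.range (Algebra.lsmul R R N a) →ₗ[R] LinearMap.range (Algebra.lsmul R R M a) :=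
    (N.subtype.restrictScalars R).restrict (by
      rintro x ⟨z, rfl⟩
      exact ⟨(z : M), rfl⟩)
  let g : LinearMap.range (Algebra.lsmul R R M a) →ₗ[R] LinearMap.range (Algebra.lsmul R R (M ⧸ N) a) :=
    (N.mkQ.restrictScalars R).restrict (by
      rintro x ⟨z, rfl⟩
      exact ⟨N.mkQ z, rfl⟩)
  have hf : Function.Injective f := by
    intro x y hxy
    have h1 : ((f x : LinearMap.range (Algebra.lsmul R R M a)) : M) = f y := by rw [hxy]
    exact Subtype.ext (Subtype.ext h1)
  have hg : Function.Surjective g := by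
    rintro ⟨y, z, rfl⟩
    obtain ⟨w, rfl⟩ := N.mkQ_surjective z
    exact ⟨⟨a • w, ⟨w, rfl⟩⟩, rfl⟩
  have hex : Function.Exact f g := by
    rintro ⟨x, z, rfl⟩
    constructor
    · intro h
      have h1 : N.mkQ (a • z) = 0 := congrArg Subtype.val h
      rw [Submodule.mkQ_apply, Submodule.Quotient.mk_eq_zero] at h1
      refine ⟨⟨⟨a • z, h1⟩, ⟨⟨a • z, h1⟩, ?_⟩⟩, ?_⟩
      · apply Subtype.ext
        change a • (a • z) = a • z
        rw [smul_smul, ha.eq]
      · apply Subtype.ext
        rfl
    · rintro ⟨⟨⟨y, hy⟩, hy2⟩, h⟩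
      apply Subtype.ext
      have h1 : y = a • z := congrArg Subtype.val h
      change N.mkQ (a • z) = 0
      rw [Submodule.mkQ_apply, Submodule.Quotient.mk_eq_zero, ← h1]
      exact hy
  have hlen := Module.length_eq_add_of_exact f g hf hg hex
  have : IsArtinian R M := isArtinian_of_fg_of_artinian'
  have htop : Module.length R (LinearMap.range (Algebra.lsmul R R M a)) ≠ ⊤ := Module.length_ne_top
  rw [hlen] at htop ⊢
  rw [ENat.toNat_add (fun h => htop (by rw [h, top_add])) (fun h => htop (by rw [h, add_top]))]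

theorem len_of_kill {a : A} {M : Type} [AddCommGroup M] [Module R M] [Module A M]
    [IsScalarTower R A M] (h : ∀ x : M, a • x = 0) : len R a M = 0 := by
  unfold len
  have h1 : LinearMap.range (Algebra.lsmul R R M a) = ⊥ := by
    rw [eq_bot_iff]
    rintro x ⟨z, rfl⟩
    exact h z
  rw [h1, Module.length_bot]
  rfl

/-- finite direct sums -/
theorem len_pi {a : A} (ha : IsIdempotentElem a) {r : ℕ} (P : Fin r → Type) [∀ t, AddCommGroup (P t)]
    [∀ t, Module R (P t)] [∀ t, Module A (P t)] [∀ t, IsScalarTower R A (P t)]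
    [∀ t, Module.Finite R (P t)] :
    len R a (∀ t, P t) = ∑ t, len R a (P t) := by
  unfold len
  let E : LinearMap.range (Algebra.lsmul R R (∀ t, P t) a) ≃ₗ[R]
      (∀ t, LinearMap.range (Algebra.lsmul R R (P t) a)) :=
    { toFun := fun x t => ⟨x.1 t, by
        obtain ⟨x, z, rfl⟩ := x
        exact ⟨z t, rfl⟩⟩
      invFun := fun y => ⟨fun t => (y t).1, by
        choose z hz using fun t => (y t).2
        exact ⟨z, funext fun t => hz t⟩⟩
      map_add' := fun x y => rfl
      map_smul' := fun c x => rfl
      left_inv := fun x => rfl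
      right_inv := fun y => rfl }
  rw [E.length_eq, Module.length_pi_of_fintype]
  have hfin : ∀ t, Module.length R (LinearMap.range (Algebra.lsmul R R (P t) a)) ≠ ⊤ := by
    intro t
    have : IsArtinian R (P t) := isArtinian_of_fg_of_artinian'
    exact Module.length_ne_top
  rw [ENat.toNat_sum fun t _ => hfin t]

/-- `length_R (a A b) = len R a (A b)` -/
theorem len_Le (a b : A) (hb : IsIdempotentElem b) :
    len R a (Le b) = (Module.length R (LinearMap.range
      ((LinearMap.mulLeft R a).comp (LinearMap.mulRight R b)))).toNat := by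
  unfold len
  have h : (LinearMap.range (Algebra.lsmul R R (Le b) a)).map
      ((Submodule.span A ({b} : Set A)).subtype.restrictScalars R) =
      LinearMap.range ((LinearMap.mulLeft R a).comp (LinearMap.mulRight R b)) := by
    ext y
    simp only [Submodule.mem_map, LinearMap.mem_range]
    constructor
    · rintro ⟨x, ⟨⟨z, hz⟩, rfl⟩, rfl⟩
      obtain ⟨c, rfl⟩ := Submodule.mem_span_singleton.1 hz
      exact ⟨c, rfl⟩
    · rintro ⟨c, rfl⟩
      exact ⟨a • ⟨c * b, Submodule.mem_span_singleton.2 ⟨c, rfl⟩⟩, ⟨_, rfl⟩, rfl⟩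
  rw [← h]
  exact congrArg ENat.toNat (Submodule.equivMapOfInjective _ (fun x y hxy => Subtype.ext hxy) _).length_eq

end Pool.Agent.CDC
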