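import Pool.Agent.Lib.MP_a20de0_al.CDC.Defs

set_option autoImplicit false

/-! CDC-UniqMax.  `A c` is a local module for a local idempotent `c`.
`sum_proper`: if `c = w1 + w2`, `w_i ∈ W_i`, then `c = c w1 c + c w2 c` (`w_i c = w_i`), `c w_i c ∈ W_i`; one of them is a unit of `c A c`
(`c w1 c` nilpotent implies `c - c w1 c` is a unit), so `c ∈ W_i`.
`simple_unique`: `N_i` simple, `c y_i ≠ 0`: the maps `A c → N_i`, `x ↦ x y_i` are onto with maximal kernels, which are equal by `sum_proper`. -/

namespace Pool.Agent.CDC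

variable {A : Type} [Ring A] {c : A}

private theorem um_mul_c (hc : IsIdempotentElem c) (w : Le c) : w.1 * c = w.1 := by
  obtain ⟨a, ha⟩ := Submodule.mem_span_singleton.1 w.2
  rw [← ha, smul_eq_mul, mul_assoc, hc.eq]

private theorem um_not_nil (hc : IsIdempotentElem c) (h0 : c ≠ 0) : ¬ IsNilpotent c := by
  rintro ⟨n, hn⟩
  rcases Nat.eq_zero_or_pos n with h | h
  · subst h
    rw [pow_zero] at hn
    apply h0
    have : c * 1 = c * 0 := by rw [hn]
    simpa using this
  · obtain ⟨m, rfl⟩ := Nat.exists_eq_succ_of_ne_zero h.ne'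
    rw [hc.pow_succ_eq] at hn
    exact h0 hn

/-- the generator of `A c` -/
private def um_gen (c : A) : Le c := ⟨c, Submodule.mem_span_singleton_self c⟩

private theorem um_top (W : Submodule A (Le c)) (h : um_gen c ∈ W) : W = ⊤ := by
  rw [Submodule.eq_top_iff']
  intro w
  obtain ⟨a, ha⟩ := Submodule.mem_span_singleton.1 w.2
  have : w = a • um_gen c := Subtype.ext (by simpa [um_gen] using ha.symm)
  rw [this]
  exact W.smul_mem _ h

private theorem um_unit_top (W : Submodule A (Le c)) (w : Le c) (hw : w ∈ W) (y : A) (hy : y * (c * w.1) = c) :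
    W = ⊤ := by
  apply um_top
  have : um_gen c = (y * c) • w := Subtype.ext (by
    show c = (y * c) * w.1
    rw [mul_assoc, hy])
  rw [this]
  exact W.smul_mem _ hw

theorem sum_proper (hc : IsIdempotentElem c) (hl : Loc c) (W1 W2 : Submodule A (Le c)) (h1 : W1 ≠ ⊤) (h2 : W2 ≠ ⊤) :
    W1 ⊔ W2 ≠ ⊤ := by
  intro htop
  have hm : um_gen c ∈ W1 ⊔ W2 := by rw [htop]; exact Submodule.mem_top
  obtain ⟨w1, hw1, w2, hw2, hsum⟩ := Submodule.mem_sup.1 hm
  have hs : w1.1 + w2.1 = c := by
    have := congrArg Subtype.val hsum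
    simpa [um_gen] using this
  have e1 : c * (c * w1.1) * c = c * w1.1 := by
    rw [mul_assoc c (c * w1.1) c, mul_assoc c w1.1 c, um_mul_c hc, ← mul_assoc, hc.eq]
  have e2 : c * (c * w2.1) * c = c * w2.1 := by
    rw [mul_assoc c (c * w2.1) c, mul_assoc c w2.1 c, um_mul_c hc, ← mul_assoc, hc.eq]
  rcases hl.2 _ e1 with ⟨y, -, -, hy⟩ | n1
  · exact h1 (um_unit_top W1 w1 hw1 y hy)
  rcases hl.2 _ e2 with ⟨y, -, -, hy⟩ | n2
  · exact h2 (um_unit_top W2 w2 hw2 y hy)
  have hx : c * w1.1 + c * w2.1 = c := by rw [← mul_add, hs, hc.eq]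
  have hx2 : c * w2.1 = c - c * w1.1 := eq_sub_of_add_eq' hx
  have hcx : c * (c * w1.1) = c * w1.1 := by rw [← mul_assoc, hc.eq]
  have hxc : (c * w1.1) * c = c * w1.1 := by rw [mul_assoc, um_mul_c hc]
  have hcomm : Commute (c * w1.1) (c * w2.1) := by
    show (c * w1.1) * (c * w2.1) = (c * w2.1) * (c * w1.1)
    rw [hx2, mul_sub, sub_mul, hxc, hcx]
  have := hcomm.isNilpotent_add n1 n2
  rw [hx] at this
  exact um_not_nil hc hl.1 this

/-- the map `A c → N`, `a ↦ a x` -/
private def um_map (c : A) {N : Type} [AddCommGroup N] [Module A N] (x : N) : Le c →ₗ[A] N :=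
  (LinearMap.toSpanSingleton A N x).comp (Submodule.subtype _)

private theorem um_map_gen (c : A) {N : Type} [AddCommGroup N] [Module A N] (x : N) :
    um_map c x (um_gen c) = c • x := by
  simp [um_map, um_gen]

private theorem um_surj {N : Type} [AddCommGroup N] [Module A N] (h : IsSimpleModule A N) (x : N) (hx : c • x ≠ 0) :
    Function.Surjective (um_map c x) := by
  rw [← LinearMap.range_eq_top]
  rcases eq_bot_or_eq_top (LinearMap.range (um_map c x)) with hb | ht
  · exfalso
    apply hx
    rw [← um_map_gen]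
    have : um_map c x (um_gen c) ∈ LinearMap.range (um_map c x) := LinearMap.mem_range_self _ _
    rw [hb] at this
    exact (Submodule.mem_bot A).1 this
  · exact ht

private theorem um_coatom {N : Type} [AddCommGroup N] [Module A N] (h : IsSimpleModule A N) (x : N) (hx : c • x ≠ 0) :
    IsCoatom (LinearMap.ker (um_map c x)) := by
  rw [← isSimpleModule_iff_isCoatom]
  exact IsSimpleModule.congr (LinearMap.quotKerEquivOfSurjective (um_map c x) (um_surj h x hx))

theorem simple_unique (hc : IsIdempotentElem c) (hl : Loc c)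
    {N N' : Type} [AddCommGroup N] [Module A N] [AddCommGroup N'] [Module A N']
    (h : IsSimpleModule A N) (h' : IsSimpleModule A N') (x : N) (hx : c • x ≠ 0) (x' : N') (hx' : c • x' ≠ 0) :
    Nonempty (N ≃ₗ[A] N') := by
  have k1 := um_coatom h x hx
  have k2 := um_coatom h' x' hx'
  have hs := sum_proper hc hl _ _ k1.1 k2.1
  have e1 : LinearMap.ker (um_map c x) = LinearMap.ker (um_map c x) ⊔ LinearMap.ker (um_map c x') := by
    by_contra hne
    exact hs (k1.2 _ (lt_of_le_of_ne le_sup_left hne))
  have e2 : LinearMap.ker (um_map c x') = LinearMap.ker (um_map c x) ⊔ LinearMap.ker (um_map c x') := by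
    by_contra hne
    exact hs (k2.2 _ (lt_of_le_of_ne le_sup_right hne))
  have e : LinearMap.ker (um_map c x) = LinearMap.ker (um_map c x') := e1.trans e2.symm
  exact ⟨((LinearMap.quotKerEquivOfSurjective (um_map c x) (um_surj h x hx)).symm.trans
    (Submodule.quotEquivOfEq _ _ e)).trans (LinearMap.quotKerEquivOfSurjective (um_map c x') (um_surj h' x' hx'))⟩

/-- a nilpotent radical: the elements of `c A c` in the Jacobson radical are exactly the non-units. -/
theorem mem_jac_iff {A : Type} [Ring A] [IsArtinianRing A] {c : A} (hc : IsIdempotentElem c) (hl : Loc c)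
    (x : A) (hx : c * x * c = x) :
    x ∈ (⊥ : Ideal A).jacobson ↔ ¬ ∃ y, c * y * c = y ∧ x * y = c ∧ y * x = c := by
  have hcx : c * x = x := by
    conv_lhs => rw [← hx]
    rw [← mul_assoc, ← mul_assoc, hc.eq, hx]
  have hxc : x * c = x := by
    conv_lhs => rw [← hx]
    rw [mul_assoc, hc.eq, hx]
  constructor
  · rintro hJ ⟨y, -, -, hyx⟩
    have hcJ : c ∈ (⊥ : Ideal A).jacobson := by
      rw [← hyx]
      exact Ideal.mul_mem_left _ _ hJ
    obtain ⟨z, hz⟩ := Ideal.mem_jacobson_iff.1 hcJ (-1)
    rw [Ideal.mem_bot] at hz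
    have hz' : z * (1 - c) = 1 := by
      rw [mul_sub, mul_one]
      have : z * -1 * c + z - 1 = (z - z * c) - 1 := by
        rw [mul_neg, mul_one, neg_mul]; abel
      rw [this] at hz
      exact sub_eq_zero.1 hz
    apply hl.1
    have : z * (1 - c) * c = c := by rw [hz', one_mul]
    rw [mul_assoc, sub_mul, one_mul, hc.eq, sub_self, mul_zero] at this
    exact this.symm
  · intro hnu
    have hxnil : IsNilpotent x := by
      rcases hl.2 x hx with h | h
      · exact absurd h hnu
      · exact h
    -- every `a x` is nilpotent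
    have key : ∀ a : A, IsNilpotent (a * x) := by
      intro a
      have hb : c * (x * (c * a * c)) * c = x * (c * a * c) := by
        rw [← mul_assoc c x, hcx, mul_assoc x, mul_assoc (c * a) c c, hc.eq]
      have hnil : IsNilpotent (x * (c * a * c)) := by
        rcases hl.2 _ hb with ⟨y, hy, hxy, -⟩ | h
        · exfalso
          -- x * r = c with r = (c a c) y
          have hr : x * ((c * a * c) * y) = c := by rw [← mul_assoc, hxy]
          obtain ⟨n, hn⟩ := hxnil
          have hall : ∀ m : ℕ, x ^ m * c ≠ 0 := by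
            intro m
            induction m with
            | zero => rw [pow_zero, one_mul]; exact hl.1
            | succ m ih =>
              intro h0
              apply ih
              have : x ^ (m + 1) * ((c * a * c) * y) = x ^ m * c := by
                rw [pow_succ, mul_assoc, hr]
              rw [← this]
              have h1 : x ^ (m + 1) * c = x ^ (m + 1) := by
                rw [pow_succ, mul_assoc, hxc]
              rw [← h1, h0, zero_mul]
          exact hall n (by rw [hn, zero_mul])
        · exact h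
      obtain ⟨n, hn⟩ := hnil
      refine ⟨n + 1, ?_⟩
      have hpow : ∀ m : ℕ, (a * x) ^ (m + 1) = a * ((x * (c * a * c)) ^ m * x) := by
        intro m
        induction m with
        | zero => simp
        | succ m ih =>
          rw [pow_succ, ih, pow_succ]
          have h2 : x * (a * x) = x * (c * a * c) * x := by
            have h3 : x * a * x = (x * c) * a * (c * x) := by rw [hxc, hcx]
            calc x * (a * x) = x * a * x := by rw [mul_assoc]
              _ = (x * c) * a * (c * x) := h3
              _ = x * (c * a * c) * x := by simp only [mul_assoc]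
          calc a * ((x * (c * a * c)) ^ m * x) * (a * x)
              = a * ((x * (c * a * c)) ^ m * (x * (a * x))) := by simp only [mul_assoc]
            _ = a * ((x * (c * a * c)) ^ m * (x * (c * a * c) * x)) := by rw [h2]
            _ = a * ((x * (c * a * c)) ^ m * (x * (c * a * c)) * x) := by simp only [mul_assoc]
      rw [hpow, hn, zero_mul, mul_zero]
    rw [Ideal.mem_jacobson_iff]
    intro y
    obtain ⟨u, hu⟩ := (key y).isUnit_one_add
    refine ⟨((u⁻¹ : Aˣ) : A), ?_⟩
    rw [Ideal.mem_bot]
    have : ((u⁻¹ : Aˣ) : A) * (1 + y * x) = 1 := by rw [← hu]; exact u.inv_mul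
    rw [mul_add, mul_one] at this
    rw [mul_assoc, add_comm (((u⁻¹ : Aˣ) : A) * (y * x)), this, sub_self]

end Pool.Agent.CDC
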