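import Pool.Agent.Lib.MP_a20de0_al.CDC.CornerAlg
import Pool.Agent.Lib.MP_a20de0_al.CDC.LenAdd
import Pool.Agent.Lib.MP_a20de0_al.CDC.UniqMax

set_option autoImplicit false

/-! CDC-Rad.  Comparison of the corner `B = f A f` with `A`, for elements `a, b` of the corner.
`corner_len`: `a B b = a A b`.  `corner_rad_len`: for a local idempotent `a`: `a J(B) a` and `a J(A) a` are both the set of non-units of
`a A a` (`mem_jac_iff` in `B` and in `A`, `Loc_corner`).  `corner_rad`: `x.1 ∈ J(A)` implies `x ∈ J(B)`. -/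

namespace Pool.Agent.CDC

variable (R : Type) [CommRing R] [IsArtinianRing R] {A : Type} [Ring A] [Algebra R A] [Module.Finite R A]
  {f : A} (hf : IsIdempotentElem f)

/-- the length of `a A b` -/
noncomputable def la (R : Type) [CommRing R] {A : Type} [Ring A] [Algebra R A] (a b : A) : ℕ :=
  (Module.length R (LinearMap.range ((LinearMap.mulLeft R a).comp (LinearMap.mulRight R b)))).toNat

/-- the length of `a J a` -/
noncomputable def lj (R : Type) [CommRing R] {A : Type} [Ring A] [Algebra R A] (a : A) : ℕ :=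
  (Module.length R (Submodule.map ((LinearMap.mulLeft R a).comp (LinearMap.mulRight R a))
            ((⊥ : Ideal A).jacobson.restrictScalars R))).toNat

/-- the inclusion of the corner -/
private def incl (R : Type) [CommRing R] {A : Type} [Ring A] [Algebra R A] {f : A} (hf : IsIdempotentElem f) :
    hf.Corner →ₗ[R] A where
  toFun x := x.1
  map_add' x y := corner_add hf x y
  map_smul' r x := corner_smul hf r x

omit [IsArtinianRing R] [Module.Finite R A] in
private theorem incl_inj : Function.Injective (incl R hf) := fun _ _ h => Subtype.ext h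

omit [IsArtinianRing R] [Module.Finite R A] in
private theorem length_of_map {V : Submodule R hf.Corner} {W : Submodule R A} (h : Submodule.map (incl R hf) V = W) :
    Module.length R V = Module.length R W := by
  subst h
  exact (Submodule.equivMapOfInjective (incl R hf) (incl_inj R hf) V).length_eq

theorem corner_len (a b : hf.Corner) : la R a b = la R a.1 b.1 := by
  unfold la
  congr 1
  apply length_of_map R hf
  ext z
  constructor
  · rintro ⟨y, ⟨x, rfl⟩, rfl⟩
    exact ⟨x.1, rfl⟩
  · rintro ⟨x, rfl⟩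
    have hx : f * (f * x * f) = f * x * f ∧ (f * x * f) * f = f * x * f := by
      constructor
      · rw [← mul_assoc, ← mul_assoc, hf.eq]
      · rw [mul_assoc (f * x) f f, hf.eq]
    refine ⟨a * (mkC hf (f * x * f) hx * b), ⟨mkC hf (f * x * f) hx, rfl⟩, ?_⟩
    show a.1 * ((f * x * f) * b.1) = a.1 * (x * b.1)
    rw [mul_assoc (f * x) f b.1, (corner_mem hf b).1, mul_assoc f x b.1, ← mul_assoc a.1 f,
      (corner_mem hf a).2]

/-- units of the corner ring of an element of the corner -/
private theorem unit_iff (a x : hf.Corner) :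
    (∃ y : hf.Corner, a * y * a = y ∧ x * y = a ∧ y * x = a) ↔
      ∃ y : A, a.1 * y * a.1 = y ∧ x.1 * y = a.1 ∧ y * x.1 = a.1 := by
  constructor
  · rintro ⟨y, h1, h2, h3⟩
    exact ⟨y.1, congrArg Subtype.val h1, congrArg Subtype.val h2, congrArg Subtype.val h3⟩
  · rintro ⟨y, h1, h2, h3⟩
    have hy : f * y = y ∧ y * f = y := by
      constructor
      · rw [← h1, ← mul_assoc, ← mul_assoc, (corner_mem hf a).1]
      · rw [← h1, mul_assoc (a.1 * y) a.1 f, (corner_mem hf a).2]
    exact ⟨mkC hf y hy, Subtype.ext h1, Subtype.ext h2, Subtype.ext h3⟩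

include R in
private theorem artB : IsArtinianRing hf.Corner := by
  have : IsScalarTower R hf.Corner hf.Corner := ⟨fun r a b => Subtype.ext (smul_mul_assoc r a.1 b.1)⟩
  exact IsArtinianRing.of_finite R hf.Corner

private theorem artA (R : Type) [CommRing R] [IsArtinianRing R] (A : Type) [Ring A] [Algebra R A] [Module.Finite R A] :
    IsArtinianRing A := IsArtinianRing.of_finite R A

include R in
private theorem jac_iff (a : hf.Corner) (ha : IsIdempotentElem a) (hl : Loc a) (x : hf.Corner) (hx : a * x * a = x) :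
    x ∈ (⊥ : Ideal hf.Corner).jacobson ↔ x.1 ∈ (⊥ : Ideal A).jacobson := by
  have := artB R hf
  have := artA R A
  have ha' : IsIdempotentElem a.1 := congrArg Subtype.val ha
  rw [mem_jac_iff ha hl x hx, mem_jac_iff ha' ((Loc_corner hf a).1 hl) x.1 (congrArg Subtype.val hx), unit_iff hf a x]

theorem corner_rad_len (a : hf.Corner) (ha : IsIdempotentElem a) (hl : Loc a) : lj R a = lj R a.1 := by
  unfold lj
  congr 1
  apply length_of_map R hf
  have ha' : a.1 * a.1 = a.1 := congrArg Subtype.val ha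
  ext z
  constructor
  · rintro ⟨y, ⟨x, hx, rfl⟩, rfl⟩
    have hx' : x ∈ (⊥ : Ideal hf.Corner).jacobson := hx
    have h1 : a * (x * a) ∈ (⊥ : Ideal hf.Corner).jacobson :=
      Ideal.mul_mem_left _ _ (Ideal.mul_mem_right _ _ hx')
    have h2 : a * (a * (x * a)) * a = a * (x * a) := by
      rw [← mul_assoc, ha.eq, mul_assoc, mul_assoc, ha.eq]
    have h3 := (jac_iff R hf a ha hl _ h2).1 h1
    refine ⟨(a * (x * a)).1, h3, ?_⟩
    show a.1 * ((a.1 * (x.1 * a.1)) * a.1) = a.1 * (x.1 * a.1)
    rw [mul_assoc a.1, mul_assoc x.1, ha', ← mul_assoc a.1 a.1, ha']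
  · rintro ⟨y, hy, rfl⟩
    have hy' : y ∈ (⊥ : Ideal A).jacobson := hy
    have h1 : a.1 * (y * a.1) ∈ (⊥ : Ideal A).jacobson :=
      Ideal.mul_mem_left _ _ (Ideal.mul_mem_right _ _ hy')
    have hz : f * (a.1 * (y * a.1)) = a.1 * (y * a.1) ∧ a.1 * (y * a.1) * f = a.1 * (y * a.1) := by
      constructor
      · rw [← mul_assoc, (corner_mem hf a).1]
      · rw [mul_assoc, mul_assoc, (corner_mem hf a).2]
    have h2 : a.1 * (a.1 * (y * a.1)) * a.1 = a.1 * (y * a.1) := by
      rw [← mul_assoc, ha', mul_assoc, mul_assoc, ha']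
    have h3 : mkC hf (a.1 * (y * a.1)) hz ∈ (⊥ : Ideal hf.Corner).jacobson :=
      (jac_iff R hf a ha hl (mkC hf (a.1 * (y * a.1)) hz) (Subtype.ext h2)).2 h1
    refine ⟨a * (mkC hf (a.1 * (y * a.1)) hz * a), ⟨mkC hf (a.1 * (y * a.1)) hz, h3, rfl⟩, ?_⟩
    show a.1 * (a.1 * (y * a.1) * a.1) = a.1 * (y * a.1)
    rw [← mul_assoc, h2]

theorem corner_rad (x : hf.Corner) (hx : x.1 ∈ (⊥ : Ideal A).jacobson) : x ∈ (⊥ : Ideal hf.Corner).jacobson := by
  rw [Ideal.mem_jacobson_iff] at hx ⊢
  intro y
  obtain ⟨z, hz⟩ := hx y.1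
  rw [Submodule.mem_bot, sub_eq_zero] at hz
  have hzf : f * (f * z * f) = f * z * f ∧ (f * z * f) * f = f * z * f := by
    constructor
    · rw [← mul_assoc, ← mul_assoc, hf.eq]
    · rw [mul_assoc (f * z) f f, hf.eq]
  refine ⟨mkC hf (f * z * f) hzf, ?_⟩
  rw [Submodule.mem_bot, sub_eq_zero]
  apply Subtype.ext
  show (f * z * f) * y.1 * x.1 + f * z * f = f
  have h1 : (f * z * f) * y.1 * x.1 = f * (z * y.1 * x.1) * f := by
    rw [mul_assoc (f * z) f y.1, (corner_mem hf y).1]
    conv_lhs => rw [← (corner_mem hf x).2]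
    simp only [mul_assoc]
  rw [h1, mul_assoc f z f, mul_assoc f _ f, ← mul_add, ← add_mul, hz, one_mul, hf.eq]

end Pool.Agent.CDC
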