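import Pool.Agent.Lib.MP_a20de0_al.CDC.ExtT

set_option autoImplicit false

/-! CDC-Twist.  `Ext^j(N,S) = 0` is invariant under ring automorphisms `φ` of `A`: if `τ : S ≃ S` and `h : N ≃ N'` are `φ`-semilinear, then
`Ext^j(N,S) = 0 ↔ Ext^j(N',S) = 0`.
Route 1: restriction of scalars along `φ` is an equivalence `F` of `ModuleCat A`, `F N' ≅ N`, `F S ≅ S`, and
`Functor.mapExt_bijective_of_preservesProjectiveObjects` (file Mathlib/Algebra/Homology/DerivedCategory/Ext/MapBijective.lean).
Route 2: induction on `j` for all `N, N'`: `j = 0` by `T_zero_iff`; `j + 1`: take a surjection `P → N` from a free module with kernel `K`; the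
same map with the twisted structures is `P' → N'`, kernel `K'`, `P'` is projective; `T P j`, `T P (j+1)` known, `T_sub`, `T_quot` relate `T N (j+1)`
and `T K j` for `j ≥ 1`; for `j = 0` use: `T N 1` iff each map `K → S` extends to `P`. -/

namespace Pool.Agent.CDC
open CategoryTheory

private theorem tw_iso {A : Type} [Ring A] {X X' Y Y' : ModuleCat.{0} A} (α : X ≅ X') (β : Y ≅ Y') (j : ℕ)
    (h : ∀ x : Abelian.Ext X Y j, x = 0) (x : Abelian.Ext X' Y' j) : x = 0 := by
  have h1 : ((Abelian.Ext.mk₀ α.hom).comp (x.comp (Abelian.Ext.mk₀ β.inv) (add_zero j)) (zero_add j)) = 0 := h _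
  have h2 : x.comp (Abelian.Ext.mk₀ β.inv) (add_zero j) = 0 := by
    have := congrArg (fun z => (Abelian.Ext.mk₀ α.inv).comp z (zero_add j)) h1
    simpa using this
  have := congrArg (fun z => z.comp (Abelian.Ext.mk₀ β.hom) (add_zero j)) h2
  simpa using this

theorem T_twist {A : Type} [Ring A] {S : Type} [AddCommGroup S] [Module A S] (φ : A ≃+* A)
    (τ : S ≃+ S) (hτ : ∀ (a : A) (s : S), τ (a • s) = φ a • τ s)
    {N N' : Type} [AddCommGroup N] [Module A N] [AddCommGroup N'] [Module A N']
    (h : N ≃+ N') (hh : ∀ (a : A) (x : N), h (a • x) = φ a • h x) (j : ℕ) :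
    T A S N j ↔ T A S N' j := by
  let F : ModuleCat.{0} A ⥤ ModuleCat.{0} A := ModuleCat.restrictScalars φ.toRingHom
  have hE : F.IsEquivalence := ModuleCat.restrictScalars_isEquivalence_of_ringEquiv φ
  have hproj : F.PreservesProjectiveObjects := inferInstance
  have hbij := Functor.mapExt_bijective_of_preservesProjectiveObjects F (ModuleCat.of A N') (ModuleCat.of A S) j
  let a1 : ModuleCat.of A N ≅ F.obj (ModuleCat.of A N') :=
    @LinearEquiv.toModuleIso A _ N N' _ _ _ (Module.compHom N' φ.toRingHom)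
      (@LinearEquiv.mk A A _ _ (RingHom.id A) (RingHom.id A) _ _ N N' _ _ _ (Module.compHom N' φ.toRingHom)
        (@LinearMap.mk A A _ _ (RingHom.id A) N N' _ _ _ (Module.compHom N' φ.toRingHom) h.toAddMonoidHom.toAddHom hh)
        h.invFun h.left_inv h.right_inv)
  let a2 : ModuleCat.of A S ≅ F.obj (ModuleCat.of A S) :=
    @LinearEquiv.toModuleIso A _ S S _ _ _ (Module.compHom S φ.toRingHom)
      (@LinearEquiv.mk A A _ _ (RingHom.id A) (RingHom.id A) _ _ S S _ _ _ (Module.compHom S φ.toRingHom)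
        (@LinearMap.mk A A _ _ (RingHom.id A) S S _ _ _ (Module.compHom S φ.toRingHom) τ.toAddMonoidHom.toAddHom hτ)
        τ.invFun τ.left_inv τ.right_inv)
  constructor
  · intro hN x
    apply hbij.1
    rw [map_zero]
    exact tw_iso a1 a2 j hN _
  · intro hN
    refine tw_iso a1.symm a2.symm j ?_
    intro y
    obtain ⟨x, rfl⟩ := hbij.2 y
    rw [hN x, map_zero]

end Pool.Agent.CDC
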