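import Pool.Agent.Lib.MP_a20de0_al.CDC.Filt
import Pool.Agent.Lib.MP_a20de0_al.CDC.Twist
import Pool.Agent.Lib.MP_a20de0_al.CDC.UniqMax

set_option autoImplicit false

/-! CDC-SConstr.  The module `S = A ⧸ (J + A f)`, `f = ∑ e_j`, and its data.
semisimple: quotient of `A ⧸ J` (`A` is Artinian).  killed: `e_j x = e_j x f + ∑_b e_j x c_b ∈ A f + J`.
emb: `N` simple and killed: some `c_b y ≠ 0` (`1 = f + ∑ c_b`), the map `A → N`, `a ↦ a c_b y` kills `J` (`N` simple) and `f` (`f c_b = 0`):
a surjection `S → N`, so `N` is isomorphic to a summand of `S`.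
homogeneity: `N, N'` simple and killed, `c_b N ≠ 0`, `c_b' N' ≠ 0`, `φ` of `Trans` with `φ(c_b) = c_b'`.  `φ` permutes the `c_b` (injective on the finite set),
so `φ(f) = φ(1 - ∑ c_b) = f`, `φ(J) = J`, and `φ` induces `τ : S ≃ S`.  `N'` with the structure `a * x = φ(a) x` is simple,
killed by the `e_j` (`e_j = e_j f`), and `c_b` is nonzero on it, so it is isomorphic to `N` (`simple_unique`): the `h` of `T_twist`.
m0: `N` simple, killed; `¬ T A S N 0` (emb, `T_zero_iff`), `T_gl`; `m0` = the largest `j` with `¬ T A S N j` (`Nat.findGreatest`).  If there is no simple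
killed module (`κ` empty) then `m0` is arbitrary. -/

namespace Pool.Agent.CDC
open CategoryTheory

/-- the left ideal `J + A f` -/
def JF {A : Type} [Ring A] {ι : Type} [Fintype ι] (e : ι → A) : Submodule A A :=
  (⊥ : Ideal A).jacobson ⊔ Submodule.span A {∑ i, e i}

private theorem sc_jac_mul {A : Type} [Ring A] {x : A} (hx : x ∈ (⊥ : Ideal A).jacobson) (y : A) :
    x * y ∈ (⊥ : Ideal A).jacobson := by
  rw [Ideal.jacobson_bot] at hx ⊢
  exact Ideal.mul_mem_right y _ hx

private theorem sc_jac_map {A : Type} [Ring A] (φ : A ≃+* A) {x : A} (hx : x ∈ (⊥ : Ideal A).jacobson) :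
    φ x ∈ (⊥ : Ideal A).jacobson := by
  rw [Ideal.jacobson_bot] at hx ⊢
  have : RingHomSurjective (φ : A →+* A) := ⟨φ.surjective⟩
  exact Ring.le_comap_jacobson (φ : A →+* A) hx

private theorem sc_semi {A : Type} [Ring A] [IsArtinianRing A] {ι : Type} [Fintype ι] (e : ι → A) :
    IsSemisimpleModule A (A ⧸ JF e) := by
  have h1 : IsSemisimpleModule A (A ⧸ Module.jacobson A A) := by
    rw [IsArtinian.isSemisimpleModule_iff_jacobson]
    exact Module.jacobson_quotient_jacobson A A
  have hle : Module.jacobson A A ≤ JF e := by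
    unfold JF
    rw [Ideal.jacobson_bot]
    exact le_sup_left
  refine IsSemisimpleModule.of_surjective (Submodule.mapQ (Module.jacobson A A) (JF e) LinearMap.id hle) ?_
  intro x
  obtain ⟨x, rfl⟩ := Submodule.mkQ_surjective _ x
  exact ⟨Submodule.Quotient.mk x, rfl⟩

private theorem sc_kill {A : Type} [Ring A] {ι κ : Type} [Fintype ι] [Fintype κ] {e : ι → A} {c : κ → A}
    (hs : Setup e c) : Kill e (A ⧸ JF e) := by
  intro j x
  obtain ⟨x, rfl⟩ := Submodule.mkQ_surjective _ x
  rw [← map_smul, ← LinearMap.mem_ker, Submodule.ker_mkQ]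
  have h : e j • x = (e j * x) * (∑ i, e i) + ∑ b, e j * x * c b := by
    rw [smul_eq_mul, ← Finset.mul_sum, ← mul_add, hs.sum, mul_one]
  rw [h]
  refine Submodule.add_mem _ ?_ ?_
  · refine Submodule.mem_sup_right ?_
    rw [← smul_eq_mul]
    exact Submodule.smul_mem _ _ (Submodule.mem_span_singleton_self _)
  · exact Submodule.mem_sup_left (Submodule.sum_mem _ fun b _ => hs.rad j b x)

private theorem sc_fc {A : Type} [Ring A] {ι κ : Type} [Fintype ι] [Fintype κ] {e : ι → A} {c : κ → A}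
    (hs : Setup e c) (b : κ) : (∑ i, e i) * c b = 0 := by
  rw [Finset.sum_mul]
  exact Finset.sum_eq_zero fun i _ => hs.orthl i b

private theorem sc_exists_c {A : Type} [Ring A] {ι κ : Type} [Fintype ι] [Fintype κ] {e : ι → A} {c : κ → A}
    (hs : Setup e c) {N : Type} [AddCommGroup N] [Module A N] (hk : Kill e N) {y : N} (hy : y ≠ 0) :
    ∃ b, c b • y ≠ 0 := by
  by_contra h
  push Not at h
  apply hy
  have h1 : (1 : A) • y = 0 := by
    rw [← hs.sum, add_smul, Finset.sum_smul, Finset.sum_smul,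
      Finset.sum_eq_zero (fun i _ => hk i y), Finset.sum_eq_zero (fun b _ => h b), add_zero]
  rwa [one_smul] at h1

private theorem sc_jac_kill {A : Type} [Ring A] {N : Type} [AddCommGroup N] [Module A N]
    (h : IsSimpleModule A N) {x : A} (hx : x ∈ (⊥ : Ideal A).jacobson) (y : N) : x • y = 0 := by
  have h1 := IsSemisimpleModule.jacobson_eq_bot A N
  have h2 := Ring.jacobson_smul_top_le A N
  rw [h1] at h2
  rw [Ideal.jacobson_bot] at hx
  have h3 : x • y ∈ Ring.jacobson A • (⊤ : Submodule A N) := Submodule.smul_mem_smul hx Submodule.mem_top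
  exact (Submodule.mem_bot A).1 (h2 h3)

private theorem sc_emb {A : Type} [Ring A] [IsArtinianRing A] {ι κ : Type} [Fintype ι] [Fintype κ]
    {e : ι → A} {c : κ → A} (hs : Setup e c) (N : Type) [AddCommGroup N] [Module A N]
    (h : IsSimpleModule A N) (hk : Kill e N) : ∃ g : N →ₗ[A] (A ⧸ JF e), g ≠ 0 := by
  have := sc_semi e
  have := IsSimpleModule.nontrivial A N
  obtain ⟨y, hy⟩ := exists_ne (0 : N)
  obtain ⟨b, hb⟩ := sc_exists_c hs hk hy
  have hu : JF e ≤ LinearMap.ker (LinearMap.toSpanSingleton A N (c b • y)) := by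
    refine sup_le ?_ ?_
    · intro x hx
      rw [LinearMap.mem_ker, LinearMap.toSpanSingleton_apply]
      exact sc_jac_kill h hx _
    · rw [Submodule.span_singleton_le_iff_mem, LinearMap.mem_ker, LinearMap.toSpanSingleton_apply,
        smul_smul, sc_fc hs b, zero_smul]
  have hv0 : ((JF e).liftQ (LinearMap.toSpanSingleton A N (c b • y)) hu) (Submodule.Quotient.mk 1) = c b • y := by
    rw [Submodule.liftQ_apply, LinearMap.toSpanSingleton_apply, one_smul]
  have hsurj : Function.Surjective ((JF e).liftQ (LinearMap.toSpanSingleton A N (c b • y)) hu) := by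
    apply LinearMap.surjective_of_ne_zero
    intro h0
    rw [h0] at hv0
    exact hb hv0.symm
  obtain ⟨g, hg⟩ := IsSemisimpleModule.lifting_property _ hsurj (LinearMap.id : N →ₗ[A] N)
  refine ⟨g, ?_⟩
  rintro rfl
  apply hy
  have := LinearMap.congr_fun hg y
  simpa using this.symm

private def ScTw (A : Type) [Ring A] (_φ : A ≃+* A) (N : Type) : Type := N

private instance scTwGroup {A : Type} [Ring A] {φ : A ≃+* A} {N : Type} [AddCommGroup N] :
    AddCommGroup (ScTw A φ N) := inferInstanceAs (AddCommGroup N)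

private instance scTwModule {A : Type} [Ring A] {φ : A ≃+* A} {N : Type} [AddCommGroup N] [Module A N] :
    Module A (ScTw A φ N) := Module.compHom N (φ : A →+* A)

private def scTwMap {A : Type} [Ring A] (φ : A ≃+* A) (N : Type) [AddCommGroup N] [Module A N] :
    ScTw A φ N →ₛₗ[(φ : A →+* A)] N where
  toFun x := x
  map_add' _ _ := rfl
  map_smul' _ _ := rfl

private theorem scTw_simple {A : Type} [Ring A] (φ : A ≃+* A) (N : Type) [AddCommGroup N] [Module A N]
    (h : IsSimpleModule A N) : IsSimpleModule A (ScTw A φ N) := by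
  have : RingHomSurjective (φ : A →+* A) := ⟨φ.surjective⟩
  exact (LinearMap.isSimpleModule_iff_of_bijective (scTwMap φ N) Function.bijective_id).2 h

private theorem sc_twist {A : Type} [Ring A] {ι κ : Type} [Fintype ι] [Fintype κ]
    {e : ι → A} {c : κ → A} (hs : Setup e c) (ht : Trans c) {N N' : Type} [AddCommGroup N] [Module A N]
    [AddCommGroup N'] [Module A N'] (h : IsSimpleModule A N) (h' : IsSimpleModule A N')
    (hk : Kill e N) (hk' : Kill e N') (j : ℕ) : T A (A ⧸ JF e) N j ↔ T A (A ⧸ JF e) N' j := by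
  have := IsSimpleModule.nontrivial A N
  have := IsSimpleModule.nontrivial A N'
  obtain ⟨y, hy⟩ := exists_ne (0 : N)
  obtain ⟨b, hb⟩ := sc_exists_c hs hk hy
  obtain ⟨y', hy'⟩ := exists_ne (0 : N')
  obtain ⟨b', hb'⟩ := sc_exists_c hs hk' hy'
  obtain ⟨φ, hφ, hp⟩ := ht b b'
  choose p hp using hp
  have hpi : Function.Injective p := by
    intro d d' hdd
    by_contra hne
    have h1 : c d = c d' := φ.injective (by rw [hp, hp, hdd])
    have h2 := hs.orthc d d' hne
    rw [← h1, hs.idemc d] at h2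
    exact (hs.locc d).1 h2
  have hpb : Function.Bijective p := Finite.injective_iff_bijective.1 hpi
  have hsum : ∑ d, φ (c d) = ∑ d, c d := by
    rw [← hpb.sum_comp c]
    exact Finset.sum_congr rfl fun d _ => hp d
  have hf : φ (∑ i, e i) = ∑ i, e i := by
    have h1 : (∑ i, e i) = 1 - ∑ d, c d := eq_sub_of_add_eq hs.sum
    rw [h1, map_sub, map_one, map_sum, hsum]
  have hfs : φ.symm (∑ i, e i) = ∑ i, e i := by
    rw [RingEquiv.symm_apply_eq, hf]
  have key : ∀ ψ : A ≃+* A, ψ (∑ i, e i) = ∑ i, e i → ∀ x ∈ JF e, ψ x ∈ JF e := by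
    intro ψ hψ x hx
    obtain ⟨u, hu, v, hv, rfl⟩ := Submodule.mem_sup.1 hx
    obtain ⟨a, rfl⟩ := Submodule.mem_span_singleton.1 hv
    rw [map_add]
    refine Submodule.add_mem _ (Submodule.mem_sup_left (sc_jac_map ψ hu)) (Submodule.mem_sup_right ?_)
    rw [smul_eq_mul, map_mul, hψ, ← smul_eq_mul]
    exact Submodule.smul_mem _ _ (Submodule.mem_span_singleton_self _)
  have hle : JF e ≤ (JF e).comap (φ : A →+* A).toSemilinearMap := fun x hx => key φ hf x hx
  obtain ⟨t, ht'⟩ : ∃ t : (A ⧸ JF e) →ₛₗ[(φ : A →+* A)] (A ⧸ JF e),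
      t = Submodule.mapQ (JF e) (JF e) (φ : A →+* A).toSemilinearMap hle := ⟨_, rfl⟩
  have htm : ∀ x : A, t (Submodule.Quotient.mk x) = Submodule.Quotient.mk (φ x) := by
    intro x
    rw [ht']
    rfl
  have htb : Function.Bijective t := by
    constructor
    · rw [injective_iff_map_eq_zero]
      intro x hx
      obtain ⟨x, rfl⟩ := Submodule.mkQ_surjective _ x
      rw [Submodule.mkQ_apply] at hx ⊢
      rw [htm, Submodule.Quotient.mk_eq_zero] at hx
      rw [Submodule.Quotient.mk_eq_zero]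
      have := key φ.symm hfs _ hx
      rwa [RingEquiv.symm_apply_apply] at this
    · intro x
      obtain ⟨x, rfl⟩ := Submodule.mkQ_surjective _ x
      refine ⟨Submodule.Quotient.mk (φ.symm x), ?_⟩
      rw [htm, RingEquiv.apply_symm_apply]
      rfl
  obtain ⟨w⟩ := simple_unique (hs.idemc b) (hs.locc b) h (scTw_simple φ N' h') y hb (y' : ScTw A φ N') (by
    change φ (c b) • y' ≠ 0
    rw [hφ]
    exact hb')
  have hw : Function.Bijective ((scTwMap φ N').toAddMonoidHom.comp w.toAddEquiv.toAddMonoidHom) :=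
    Function.bijective_id.comp w.bijective
  refine T_twist φ (AddEquiv.ofBijective t.toAddMonoidHom htb) (fun a s => t.map_smulₛₗ a s)
    (AddEquiv.ofBijective _ hw) (fun a x => ?_) j
  have h1 := w.map_smul a x
  change scTwMap φ N' (w (a • x)) = φ a • scTwMap φ N' (w x)
  rw [h1, LinearMap.map_smulₛₗ]
  rfl

theorem exists_SData (R : Type) [CommRing R] [IsArtinianRing R] {A : Type} [Ring A] [Algebra R A]
    [Module.Finite R A] {ι κ : Type} [Fintype ι] [Fintype κ] {e : ι → A} {c : κ → A}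
    (hs : Setup e c) (ht : Trans c) (hgl : FinGl A) :
    ∃ m0 : ℕ, SData e (A ⧸ JF e) m0 := by
  have : IsArtinianRing A := IsArtinianRing.of_finite R A
  classical
  obtain ⟨B, hB⟩ := T_gl (S := A ⧸ JF e) hgl
  by_cases hex : ∃ (N : Type) (_ : AddCommGroup N) (_ : Module A N), IsSimpleModule A N ∧ Kill e N
  · obtain ⟨N, i1, i2, hN, hk⟩ := hex
    have h0 : ¬ T A (A ⧸ JF e) N 0 := by
      rw [T_zero_iff]
      intro h
      obtain ⟨g, hg⟩ := sc_emb hs N hN hk
      exact hg (h g)
    refine ⟨Nat.findGreatest (fun j => ¬ T A (A ⧸ JF e) N j) B, ?_⟩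
    refine ⟨sc_semi e, sc_kill hs, fun N' _ _ h' hk' => sc_emb hs N' h' hk', ?_, ?_⟩
    · intro N' _ _ h' hk' hT
      exact Nat.findGreatest_spec (P := fun j => ¬ T A (A ⧸ JF e) N j) (Nat.zero_le B) h0
        ((sc_twist hs ht hN h' hk hk' _).2 hT)
    · intro N' _ _ h' hk' j hj
      rw [← sc_twist hs ht hN h' hk hk' j]
      by_cases hjB : j ≤ B
      · have := Nat.findGreatest_is_greatest hj hjB
        exact not_not.1 this
      · exact hB N j (by omega)
  · refine ⟨0, sc_semi e, sc_kill hs, fun N' _ _ h' hk' => sc_emb hs N' h' hk', ?_, ?_⟩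
    · intro N' i1 i2 h' hk'
      exact absurd ⟨N', i1, i2, h', hk'⟩ hex
    · intro N' i1 i2 h' hk'
      exact absurd ⟨N', i1, i2, h', hk'⟩ hex

/-- `Hom(A c_b, S) ≠ 0` -/
theorem exists_gS {A : Type} [Ring A] [IsArtinianRing A] {ι κ : Type} [Fintype ι] [Fintype κ] {e : ι → A} {c : κ → A}
    (hs : Setup e c) (b : κ) : ∃ g : Le (c b) →ₗ[A] (A ⧸ JF e), g ≠ 0 := by
  have hc : c b ∉ JF e := by
    intro hmem
    obtain ⟨u, hu, v, hv, huv⟩ := Submodule.mem_sup.1 hmem
    obtain ⟨a, rfl⟩ := Submodule.mem_span_singleton.1 hv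
    have h1 : c b = u * c b := by
      have h2 : c b * c b = (u + a • (∑ i, e i)) * c b := by rw [huv]
      rw [hs.idemc b, add_mul, smul_eq_mul, mul_assoc, sc_fc hs b, mul_zero, add_zero] at h2
      exact h2
    have h3 : c b ∈ (⊥ : Ideal A).jacobson := by
      rw [h1]
      exact sc_jac_mul hu _
    obtain ⟨z, hz⟩ := Ideal.mem_jacobson_iff.1 h3 (-1)
    rw [Ideal.mem_bot] at hz
    have h4 : z * (1 - c b) = 1 := by
      have : z * (1 - c b) - 1 = z * -1 * c b + z - 1 := by noncomm_ring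
      rw [← sub_eq_zero, this, hz]
    apply (hs.locc b).1
    have h5 : z * (1 - c b) * c b = c b := by rw [h4, one_mul]
    rw [mul_assoc, sub_mul, one_mul, hs.idemc b, sub_self, mul_zero] at h5
    exact h5.symm
  refine ⟨(JF e).mkQ ∘ₗ (Submodule.span A ({c b} : Set A)).subtype, ?_⟩
  intro h
  apply hc
  have h1 := LinearMap.congr_fun h ⟨c b, Submodule.mem_span_singleton_self _⟩
  rw [LinearMap.comp_apply, LinearMap.zero_apply] at h1
  exact (Submodule.Quotient.mk_eq_zero _).1 h1

end Pool.Agent.CDC
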