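import Pool.Agent.Lib.MP_a20de0_al.CDC.LenAdd
import Pool.Agent.Lib.MP_a20de0_al.CDC.UniqMax

set_option autoImplicit false

/-! CDC-SLen.  The lengths of the simple quotient `A c_b / I` (killed by the `e_j`).
`c_b' x = 0` for `b' ≠ b`: `c_b' A c_b ⊆ J` and `J` kills the simple module.  `c_b (A c_b / I)`: `J c_b ⊆ I` and conversely an element of
`c_b I ⊆ c_b A c_b` is not a unit of `c_b A c_b` (otherwise `c_b ∈ I`), so it is in `J` (`mem_jac_iff`); so
`length (c_b (A c_b / I)) = length (c_b A c_b) - length (c_b J c_b)`. -/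

namespace Pool.Agent.CDC

private theorem sl_finite (R : Type) [CommRing R] [IsArtinianRing R] {A : Type} [Ring A] [Algebra R A]
    {M : Type} [AddCommGroup M] [Module R M] [Module A M] [IsScalarTower R A M] [Module.Finite R M]
    (N : Submodule A M) : Module.Finite R N :=
  haveI : IsNoetherian R M := inferInstance
  Module.Finite.of_injective (N.subtype.restrictScalars R) (fun _ _ h => Subtype.ext h)

/-- the generator of `A c` -/
private def sl_gen {A : Type} [Ring A] (c : A) : Le c := ⟨c, Submodule.mem_span_singleton_self c⟩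

private theorem sl_kill {A : Type} [Ring A] {N : Type} [AddCommGroup N] [Module A N] (hN : IsSimpleModule A N)
    {j : A} (hj : j ∈ (⊥ : Ideal A).jacobson) (x : N) : j • x = 0 := by
  rw [Ideal.jacobson_bot] at hj
  haveI := hN
  have h := IsSemisimpleModule.jacobson_le_annihilator A N hj
  exact Module.mem_annihilator.1 h x

/-- `J c ⊆ I` -/
private theorem sl_mem {A : Type} [Ring A] {c : A} (I : Submodule A (Le c)) (hI : IsSimpleModule A ((Le c) ⧸ I))
    {j : A} (hj : j ∈ (⊥ : Ideal A).jacobson) : j • sl_gen c ∈ I := by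
  have h := sl_kill hI hj (Submodule.Quotient.mk (sl_gen c))
  rwa [← Submodule.Quotient.mk_smul, Submodule.Quotient.mk_eq_zero] at h

private theorem sl_mul_c {A : Type} [Ring A] {c : A} (hc : IsIdempotentElem c) (w : Le c) : w.1 * c = w.1 := by
  obtain ⟨a, ha⟩ := Submodule.mem_span_singleton.1 w.2
  rw [← ha, smul_eq_mul, mul_assoc, hc.eq]

private theorem sl_gen_not_mem {A : Type} [Ring A] {c : A} (I : Submodule A (Le c)) (hI : IsSimpleModule A ((Le c) ⧸ I)) :
    sl_gen c ∉ I := by
  intro h
  haveI := hI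
  haveI : Nontrivial ((Le c) ⧸ I) := IsSimpleModule.nontrivial A _
  have htop : I = ⊤ := by
    rw [Submodule.eq_top_iff']
    intro w
    obtain ⟨a, ha⟩ := Submodule.mem_span_singleton.1 w.2
    have : w = a • sl_gen c := Subtype.ext (by simpa [sl_gen] using ha.symm)
    rw [this]
    exact I.smul_mem _ h
  exact (Submodule.Quotient.nontrivial_iff.1 this) htop

theorem len_simple_ne (R : Type) [CommRing R] [IsArtinianRing R] {A : Type} [Ring A] [Algebra R A]
    [Module.Finite R A] {ι κ : Type} [Fintype ι] [Fintype κ] {e : ι → A} {c : κ → A}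
    (hs : Setup e c) (b b' : κ) (hb : b' ≠ b) (I : Submodule A (Le (c b)))
    (hI : IsSimpleModule A ((Le (c b)) ⧸ I)) : len R (c b') ((Le (c b)) ⧸ I) = 0 := by
  refine len_of_kill R fun x => ?_
  obtain ⟨w, rfl⟩ := Submodule.Quotient.mk_surjective I x
  obtain ⟨a, ha⟩ := Submodule.mem_span_singleton.1 w.2
  rw [← Submodule.Quotient.mk_smul, Submodule.Quotient.mk_eq_zero]
  have h : c b' • w = (c b' * a * c b) • sl_gen (c b) := Subtype.ext (by
    change c b' * w.1 = (c b' * a * c b) * c b
    rw [mul_assoc (c b' * a), (hs.idemc b).eq, ← ha, smul_eq_mul, mul_assoc])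
  rw [h]
  exact sl_mem I hI (hs.radc b' b hb a)

/-- `length (c A c) = length (c (A c / I)) + length (c J c)`; and `c (A c / I) ≠ 0` -/
theorem len_simple_self (R : Type) [CommRing R] [IsArtinianRing R] {A : Type} [Ring A] [Algebra R A]
    [Module.Finite R A] {c : A} (hc : IsIdempotentElem c) (hl : Loc c) (I : Submodule A (Le c))
    (hI : IsSimpleModule A ((Le c) ⧸ I)) :
    len R c (Le c) = len R c ((Le c) ⧸ I) + (Module.length R (Submodule.map
            ((LinearMap.mulLeft R c).comp (LinearMap.mulRight R c))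
            ((⊥ : Ideal A).jacobson.restrictScalars R))).toNat ∧ 0 < len R c ((Le c) ⧸ I) := by
  haveI : IsArtinianRing A := isArtinian_of_tower R inferInstance
  haveI : Module.Finite R (Le c) := sl_finite R (Submodule.span A ({c} : Set A))
  constructor
  · rw [len_add R hc I, add_comm]
    congr 1
    unfold len
    congr 1
    let ι : ↥I →ₗ[R] A := ((Submodule.subtype (Submodule.span A ({c} : Set A))).comp I.subtype).restrictScalars R
    have hι : Function.Injective ι := fun x y h => Subtype.ext (Subtype.ext h)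
    have hιv : ∀ x : ↥I, ι x = x.1.1 := fun x => rfl
    have heq : Submodule.map ι (LinearMap.range (Algebra.lsmul R R (↥I) c)) =
        Submodule.map ((LinearMap.mulLeft R c).comp (LinearMap.mulRight R c)) ((⊥ : Ideal A).jacobson.restrictScalars R) := by
      ext y
      constructor
      · rintro ⟨z, ⟨w, rfl⟩, rfl⟩
        have h1 : ι (Algebra.lsmul R R (↥I) c w) = c * w.1.1 := rfl
        have hwc : w.1.1 * c = w.1.1 := sl_mul_c hc w.1
        have h2 : c * (c * w.1.1) * c = c * w.1.1 := by
          rw [← mul_assoc c c, hc.eq, mul_assoc, hwc]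
        refine ⟨c * w.1.1, ?_, ?_⟩
        · change c * w.1.1 ∈ (⊥ : Ideal A).jacobson
          rw [mem_jac_iff hc hl _ h2]
          rintro ⟨y, -, -, hy⟩
          apply sl_gen_not_mem I hI
          have h3 : sl_gen c = (y * c) • w.1 := Subtype.ext (by
            change c = (y * c) * w.1.1
            rw [mul_assoc, hy])
          rw [h3]
          exact I.smul_mem _ w.2
        · rw [h1]
          change c * (c * w.1.1 * c) = c * w.1.1
          rw [← mul_assoc, h2]
      · rintro ⟨x, hx, rfl⟩
        have hx' : x ∈ (⊥ : Ideal A).jacobson := hx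
        refine ⟨Algebra.lsmul R R (↥I) c ⟨x • sl_gen c, sl_mem I hI hx'⟩, ⟨_, rfl⟩, ?_⟩
        rfl
    have e1 := (Submodule.equivMapOfInjective ι hι (LinearMap.range (Algebra.lsmul R R (↥I) c)))
    rw [e1.length_eq, heq]
  · haveI : Module.Finite R ((Le c) ⧸ I) := inferInstance
    unfold len
    have hne : Module.length R (LinearMap.range (Algebra.lsmul R R ((Le c) ⧸ I) c)) ≠ 0 := by
      rw [Ne, Module.length_eq_zero_iff]
      intro hsub
      apply sl_gen_not_mem I hI
      have h1 : (⟨Algebra.lsmul R R ((Le c) ⧸ I) c (Submodule.Quotient.mk (sl_gen c)), ⟨_, rfl⟩⟩ :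
          LinearMap.range (Algebra.lsmul R R ((Le c) ⧸ I) c)) = 0 := Subsingleton.elim _ _
      have h2 : c • (Submodule.Quotient.mk (sl_gen c) : (Le c) ⧸ I) = 0 := congrArg Subtype.val h1
      rw [← Submodule.Quotient.mk_smul, Submodule.Quotient.mk_eq_zero] at h2
      have h3 : c • sl_gen c = sl_gen c := Subtype.ext hc.eq
      rwa [h3] at h2
    have htop : Module.length R (LinearMap.range (Algebra.lsmul R R ((Le c) ⧸ I) c)) ≠ ⊤ := Module.length_ne_top
    rcases h : Module.length R (LinearMap.range (Algebra.lsmul R R ((Le c) ⧸ I) c)) with _ | n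
    · exact absurd h htop
    · have h0 : n ≠ 0 := fun hn => hne (by rw [h, hn]; rfl)
      exact Nat.pos_of_ne_zero h0

end Pool.Agent.CDC
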