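import Pool.Agent.Lib.MP_a20de0_al.CDC.End
import Pool.Agent.Lib.MP_a20de0_al.CDC.ChainEx
import Pool.Agent.Lib.MP_a20de0_al.CDC.SConstr
import Pool.Agent.Lib.MP_a20de0_al.CDC.SLen
import Pool.Agent.Lib.MP_a20de0_al.CDC.Rad

set_option autoImplicit false

/-! CDC-Local.  The local theorem for `A` with old idempotents `e` and new idempotents `c`: the columns `c_b` of the length matrix.
From `local_relation` (with `exists_SData`, `exists_gS`, `sum_proper`, `exists_chain`) and `len_add`, `len_Le` (`len R a (Le b) = la R a b`),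
`len_simple_ne`, `len_simple_self`, `len_of_kill`. -/

namespace Pool.Agent.CDC

private theorem finite_sub (R : Type) [CommRing R] [IsArtinianRing R] {A : Type} [Ring A] [Algebra R A]
    {M : Type} [AddCommGroup M] [Module R M] [Module A M] [IsScalarTower R A M] [Module.Finite R M]
    (N : Submodule A M) : Module.Finite R N :=
  haveI : IsNoetherian R M := inferInstance
  Module.Finite.of_injective (N.subtype.restrictScalars R) (fun _ _ h => Subtype.ext h)

theorem local_columns (R : Type) [CommRing R] [IsArtinianRing R] {A : Type} [Ring A] [Algebra R A]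
    [Module.Finite R A] {ι κ : Type} [Fintype ι] [Fintype κ] {e : ι → A} {c : κ → A}
    (hs : Setup e c) (ht : Trans c) (hgl : FinGl A) (hf : IsIdempotentElem (∑ i, e i))
    (hgl' : Nonempty ι → FinGl hf.Corner) (b : κ) :
    ∃ x : ι → ℤ,
      (∀ k, (la R (e k) (c b) : ℤ) = ∑ j, x j * (la R (e k) (e j) : ℤ)) ∧
      (∀ b', b' ≠ b → (la R (c b') (c b) : ℤ) = ∑ j, x j * (la R (c b') (e j) : ℤ)) ∧
      (la R (c b) (c b) : ℤ) = (∑ j, x j * (la R (c b) (e j) : ℤ)) + ((la R (c b) (c b) : ℤ) - lj R (c b)) ∧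
      (lj R (c b) : ℤ) < la R (c b) (c b) := by
  classical
  haveI : IsArtinianRing A := isArtinian_of_tower R inferInstance
  haveI := finite_sub R (Submodule.span A ({c b} : Set A))
  obtain ⟨m0, hS⟩ := exists_SData R hs ht hgl
  obtain ⟨s, hch⟩ := exists_chain R hs.idem hs.orth hs.loc hf hgl' (Le (c b))
  obtain ⟨_, I, hIs, hIk, x, hx⟩ := local_relation R hs.idem hS (hs.idemc b) (exists_gS hs b)
    (sum_proper (hs.idemc b) (hs.locc b)) ⟨s, hch⟩
  have hLe : ∀ a a' : A, IsIdempotentElem a' → len R a (Le a') = la R a a' := fun a a' h => len_Le R a a' h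
  have key : ∀ a : A, IsIdempotentElem a →
      (la R a (c b) : ℤ) = (∑ j, x j * (la R a (e j) : ℤ)) + len R a ((Le (c b)) ⧸ I) := by
    intro a ha
    have h1 := len_add R ha I
    rw [hLe a (c b) (hs.idemc b)] at h1
    rw [h1]
    push_cast
    rw [hx a ha]
    congr 1
    refine Finset.sum_congr rfl (fun j _ => ?_)
    rw [hLe a (e j) (hs.idem j)]
  refine ⟨x, ?_, ?_, ?_, ?_⟩
  · intro k
    rw [key (e k) (hs.idem k), len_of_kill R (fun y => hIk k y)]
    simp
  · intro b' hb'
    rw [key (c b') (hs.idemc b'), len_simple_ne R hs b b' hb' I hIs]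
    simp
  · have h2 := (len_simple_self R (hs.idemc b) (hs.locc b) I hIs).1
    rw [hLe (c b) (c b) (hs.idemc b)] at h2
    have h3 : (la R (c b) (c b) : ℤ) = len R (c b) ((Le (c b)) ⧸ I) + lj R (c b) := by
      rw [h2]; push_cast; rfl
    have h4 := key (c b) (hs.idemc b)
    omega
  · have h2 := len_simple_self R (hs.idemc b) (hs.locc b) I hIs
    have h3 := h2.1
    rw [hLe (c b) (c b) (hs.idemc b)] at h3
    have h5 : la R (c b) (c b) = len R (c b) ((Le (c b)) ⧸ I) + lj R (c b) := h3
    have h6 := h2.2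
    omega

end Pool.Agent.CDC
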