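import Pool.Agent.Lib.MP_a20de0_al.CDC.CornerMod

set_option autoImplicit false

/-! CDC-PdStep.  `u : X → M` with `f M ⊆ range u` and `f X` projective over the corner: `0 → f ker u → f X → f M → 0` is exact,
so the projective dimension goes down. -/

namespace Pool.Agent.CDC
open CategoryTheory

theorem pd_step {A : Type} [Ring A] {f : A} (hf : IsIdempotentElem f)
    {X M : Type} [AddCommGroup X] [Module A X] [AddCommGroup M] [Module A M] (u : X →ₗ[A] M)
    (hu : ∀ x : M, f • x ∈ LinearMap.range u) (hX : Module.Projective hf.Corner (FM hf X)) (k : ℕ)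
    (h : HasProjectiveDimensionLT (ModuleCat.of hf.Corner (FM hf M)) (k + 2)) :
    HasProjectiveDimensionLT (ModuleCat.of hf.Corner (FM hf (LinearMap.ker u))) (k + 1) := by
  have hsurj : Function.Surjective (FMap hf u) := by
    intro y
    obtain ⟨x, hx⟩ := hu y.1
    rw [FM_mem hf M y] at hx
    refine ⟨⟨f • x, ?_⟩, ?_⟩
    · show f • (f • x) = f • x
      rw [← mul_smul, hf.eq]
    · apply Subtype.ext
      show u (f • x) = y.1
      rw [map_smul, hx, FM_mem hf M y]
  have hS := LinearMap.shortExact_shortComplexKer hsurj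
  have h2 : Projective ((FMap hf u).shortComplexKer).X₂ :=
    (IsProjective.iff_projective (FM hf X)).1 hX
  have h3 : HasProjectiveDimensionLT (ModuleCat.of hf.Corner (LinearMap.ker (FMap hf u))) (k + 1) :=
    (hS.hasProjectiveDimensionLT_X₃_iff k h2).1 h
  let φ : LinearMap.ker (FMap hf u) ≃ₗ[hf.Corner] FM hf (LinearMap.ker u) :=
    { toFun := fun x => ⟨⟨x.1.1, by
          have h5 : FMap hf u x.1 = 0 := x.2
          have h6 : (FMap hf u x.1).1 = (0 : FM hf M).1 := by rw [h5]
          exact LinearMap.mem_ker.2 h6⟩, by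
          apply Subtype.ext
          exact FM_mem hf X x.1⟩
      invFun := fun x => ⟨(⟨x.1.1, congrArg Subtype.val (FM_mem hf (LinearMap.ker u) x)⟩ : FM hf X), by
        have h5 : u x.1.1 = 0 := LinearMap.mem_ker.1 x.1.2
        rw [LinearMap.mem_ker]
        apply Subtype.ext
        exact h5⟩
      left_inv := fun _ => rfl
      right_inv := fun _ => rfl
      map_add' := fun _ _ => rfl
      map_smul' := fun _ _ => rfl }
  exact @hasProjectiveDimensionLT_of_iso _ _ _ _ _ φ.toModuleIso (k + 1) h3

end Pool.Agent.CDC
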